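import Pool.Agent.H515.FinAlg

/-! # Finite abelian groups with an automorphism of `p`-power order: the part prime to `p` -/

set_option autoImplicit false
set_option linter.unusedSectionVars false
set_option linter.deprecated false

namespace Pool.Agent.H515.LP

open Pool.Agent.H515.CH

section
variable {A B : Type} [AddCommGroup A] [AddCommGroup B] [Finite A] [Finite B]

/-- the elements of order dividing `l` -/
def tor (A : Type) [AddCommGroup A] (l : ℕ) : AddSubgroup A where
  carrier := {a | l • a = 0}
  add_mem' := by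
    intro a b ha hb
    change l • (a + b) = 0
    rw [smul_add, ha, hb, add_zero]
  zero_mem' := smul_zero l
  neg_mem' := by
    intro a ha
    change l • (-a) = 0
    rw [smul_neg, ha, neg_zero]

theorem mem_tor {l : ℕ} {a : A} : a ∈ tor A l ↔ l • a = 0 := Iff.rfl

/-- few elements of order `l` are fixed by the subgroup of order `p` -/
theorem fixed_of_few {p l n : ℕ} (hp : p.Prime) (hn : 1 ≤ n) (σ : A →+ A)
    (hσ : ∀ a, σ^[p ^ n] a = a) (hc : Nat.card (tor A l) ≤ p ^ n) {a : A} (ha : l • a = 0) :
    σ^[p ^ (n - 1)] a = a := by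
  classical
  by_cases h0 : a = 0
  · subst h0
    exact iterate_map_zero σ _
  have hinj : Function.Injective σ := by
    intro x y hxy
    have h1 := hσ x
    have h2 := hσ y
    obtain ⟨k, hk⟩ := Nat.exists_eq_succ_of_ne_zero (pow_ne_zero n hp.ne_zero)
    rw [hk, Nat.succ_eq_add_one, Function.iterate_succ_apply] at h1 h2
    rw [← h1, ← h2, hxy]
  let S : Type := {x : tor A l // x ≠ 0}
  have hS : Finite S := inferInstance
  have hSf : Fintype S := Fintype.ofFinite S
  let f : S → S := fun x => ⟨⟨σ x.1.1, by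
      rw [mem_tor, ← map_nsmul]
      have := x.1.2
      rw [mem_tor] at this
      rw [this, map_zero]⟩, by
      intro h
      apply x.2
      apply Subtype.ext
      apply hinj
      exact (congrArg Subtype.val h).trans (map_zero σ).symm⟩
  have hf : ∀ (k : ℕ) (x : S), (f^[k] x).1.1 = σ^[k] x.1.1 := by
    intro k
    induction k with
    | zero => intro x; rfl
    | succ k ih =>
      intro x
      rw [Function.iterate_succ_apply, Function.iterate_succ_apply, ih]
  let x : S := ⟨⟨a, ha⟩, fun h => h0 (congrArg Subtype.val h)⟩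
  have h1 : Function.minimalPeriod f x ∣ p ^ n := by
    apply Function.IsPeriodicPt.minimalPeriod_dvd
    apply Subtype.ext
    apply Subtype.ext
    rw [hf]
    exact hσ a
  have h2 : Function.minimalPeriod f x ≤ Fintype.card S := Function.minimalPeriod_le_card
  have h3 : Fintype.card S < p ^ n := by
    have hT : Fintype (tor A l) := Fintype.ofFinite _
    have h4 : Fintype.card S < Fintype.card (tor A l) :=
      Fintype.card_subtype_lt (x := (0 : tor A l)) (by simp)
    rw [Nat.card_eq_fintype_card] at hc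
    exact h4.trans_le hc
  have h5 : Function.minimalPeriod f x ∣ p ^ (n - 1) := by
    obtain ⟨k, hk, hk2⟩ := (Nat.dvd_prime_pow hp).1 h1
    have h6 : k ≠ n := by
      rintro rfl
      omega
    rw [hk2]
    exact pow_dvd_pow p (by omega)
  have h6 : Function.IsPeriodicPt f (p ^ (n - 1)) x :=
    (Function.isPeriodicPt_minimalPeriod f x).trans_dvd h5
  have h7 := hf (p ^ (n - 1)) x
  rw [h6] at h7
  exact h7.symm

/-- the gap lemma -/
theorem gap {p l n : ℕ} (hp : p.Prime) (hl : l.Prime) (hne : l ≠ p) (hn : 1 ≤ n)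
    (N : A →+ B) (J : B →+ A) (hNJ : ∀ b, N (J b) = p • b) (σ : A →+ A)
    (hσ : ∀ a, σ^[p ^ n] a = a) (htr : ∀ a, σ^[p ^ (n - 1)] a = a → J (N a) = p • a)
    (hc : Nat.card (tor A l) ≤ p ^ n) :
    padicValNat l (Nat.card A) = padicValNat l (Nat.card B) := by
  have hlf : Fact l.Prime := ⟨hl⟩
  have hcop : p.Coprime l := ((Nat.coprime_primes hp hl).2 (Ne.symm hne))
  have h1 : ¬ l ∣ Nat.card N.ker := by
    intro hd
    obtain ⟨x, hx⟩ := exists_prime_addOrderOf_dvd_card' l hd
    have h3 : l • (x : A) = 0 := by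
      have := addOrderOf_nsmul_eq_zero x
      rw [hx] at this
      exact congrArg Subtype.val this
    have h4 := fixed_of_few hp hn σ hσ hc h3
    have h5 := htr _ h4
    have h6 : N (x : A) = 0 := x.2
    rw [h6, map_zero] at h5
    have h7 : (x : A) = 0 := by
      have h8 := Nat.gcd_eq_gcd_ab p l
      rw [hcop.gcd_eq_one] at h8
      have h9 : ((1 : ℕ) : ℤ) • (x : A) = 0 := by
        rw [h8, add_smul, mul_comm, mul_smul, mul_comm (l : ℤ), mul_smul, natCast_zsmul,
          natCast_zsmul, ← h5, h3, smul_zero, smul_zero, add_zero]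
      simpa using h9
    have h8 : x = 0 := Subtype.ext h7
    rw [h8, addOrderOf_zero] at hx
    exact hl.one_lt.ne hx
  have h2 : Nat.card A = Nat.card N.ker * Nat.card N.range := by
    have h3 := card_map_ker N (⊤ : AddSubgroup A)
    rw [inf_top_eq, ← AddMonoidHom.range_eq_map] at h3
    rw [← h3]
    exact (Nat.card_congr (AddSubgroup.topEquiv.toEquiv)).symm
  have h3 : padicValNat l (Nat.card N.range) = padicValNat l (Nat.card B) := by
    apply le_antisymm
    · exact val_dvd (Nat.card_pos.ne') (AddSubgroup.card_addSubgroup_dvd_card _)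
    · have h4 := val_smul (p := l) p hcop (⊤ : AddSubgroup B)
      rw [Nat.card_congr (AddSubgroup.topEquiv.toEquiv)] at h4
      rw [← h4]
      refine val_dvd (Nat.card_pos.ne') (AddSubgroup.card_dvd_of_le ?_)
      rintro _ ⟨b, -, rfl⟩
      exact ⟨J b, hNJ b⟩
  rw [h2, val_mul (p := l) Nat.card_pos.ne' Nat.card_pos.ne', h3,
    padicValNat.eq_zero_of_not_dvd h1, zero_add]

/-- a bound for the number of the elements of order `l` by the fixed elements -/
theorem rank_le {l c : ℕ} (hl : l.Prime) (σ : A →+ A) (hσ : ∀ a, σ^[l] a = a)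
    (hc : padicValNat l (Nat.card (σ - AddMonoidHom.id A).ker) ≤ c) :
    Nat.card (tor A l) ≤ l ^ (c * l) := by
  have hlf : Fact l.Prime := ⟨hl⟩
  let s : AddMonoid.End A := σ
  let δ : AddMonoid.End A := s - 1
  let K : ℕ → AddSubgroup A := fun i => (δ ^ i).ker ⊓ tor A l
  have hK1 : Nat.card (K 1) ≤ l ^ c := by
    have h1 : ∀ q : ℕ, q.Prime → q ∣ Nat.card (K 1) → q = l := by
      intro q hq hd
      have hqf : Fact q.Prime := ⟨hq⟩
      obtain ⟨x, hx⟩ := exists_prime_addOrderOf_dvd_card' q hd
      have h2 : l • x = 0 := by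
        apply Subtype.ext
        exact x.2.2
      have h3 := addOrderOf_dvd_of_nsmul_eq_zero h2
      rw [hx] at h3
      exact (Nat.prime_dvd_prime_iff_eq hq hl).1 h3
    have h2 : Nat.card (K 1) = l ^ (Nat.card (K 1)).primeFactorsList.length :=
      Nat.eq_prime_pow_of_unique_prime_dvd Nat.card_pos.ne' (fun {q} hq hd => h1 q hq hd)
    have h3 : Nat.card (K 1) ∣ Nat.card (σ - AddMonoidHom.id A).ker := by
      refine AddSubgroup.card_dvd_of_le ?_
      intro x hx
      have h4 : (δ ^ 1) x = 0 := hx.1
      rw [pow_one] at h4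
      exact h4
    rw [h2] at h3 ⊢
    have h4 := val_dvd (p := l) Nat.card_pos.ne' h3
    rw [padicValNat.prime_pow] at h4
    exact Nat.pow_le_pow_right hl.pos (h4.trans hc)
  have hstep : ∀ i, Nat.card (K i) ≤ (l ^ c) ^ i := by
    intro i
    induction i with
    | zero =>
      have h1 : K 0 = ⊥ := by
        rw [eq_bot_iff]
        intro x hx
        have h2 := hx.1
        rw [pow_zero] at h2
        exact h2
      rw [h1, pow_zero]
      exact (AddSubgroup.card_bot (G := A)).le
    | succ i ih =>
      have h1 := card_map_ker (δ ^ i) (K (i + 1))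
      have h2 : Nat.card ((δ ^ i).ker ⊓ K (i + 1) : AddSubgroup A) ≤ Nat.card (K i) := by
        apply Nat.le_of_dvd Nat.card_pos
        refine AddSubgroup.card_dvd_of_le ?_
        intro x hx
        exact ⟨hx.1, hx.2.2⟩
      have h3 : Nat.card ((K (i + 1)).map (δ ^ i)) ≤ Nat.card (K 1) := by
        apply Nat.le_of_dvd Nat.card_pos
        refine AddSubgroup.card_dvd_of_le ?_
        rintro _ ⟨x, hx, rfl⟩
        refine ⟨?_, ?_⟩
        · have h4 : (δ ^ (i + 1)) x = 0 := hx.1
          rw [pow_succ'] at h4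
          change (δ ^ 1) ((δ ^ i) x) = 0
          rw [pow_one]
          exact h4
        · have h4 : l • x = 0 := hx.2
          change l • ((δ ^ i) x) = 0
          rw [← map_nsmul, h4, map_zero]
      rw [h1, pow_succ]
      exact Nat.mul_le_mul (h2.trans ih) (h3.trans hK1)
  have htop : K l = tor A l := by
    apply le_antisymm inf_le_right
    intro x hx
    refine ⟨?_, hx⟩
    have hx' : l • x = 0 := hx
    change (δ ^ l) x = 0
    obtain ⟨r0, hr⟩ := Commute.exists_add_pow_prime_eq hl
      (show Commute s (-1) from (Commute.neg_one_right _))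
    obtain ⟨r, hrr⟩ : ∃ r : AddMonoid.End A, r = s * (-1) * r0 := ⟨_, rfl⟩
    rw [mul_assoc (l : AddMonoid.End A) s (-1), mul_assoc (l : AddMonoid.End A) (s * (-1)) r0,
      ← hrr] at hr
    have h1 : δ ^ l = s ^ l + (-1) ^ l + (l : AddMonoid.End A) * r := by
      rw [← hr]
      change (s - 1) ^ l = _
      rw [sub_eq_add_neg]
    have h2 : (s ^ l) x = x := by
      have h3 : ∀ (k : ℕ) (y : A), (s ^ k) y = σ^[k] y := by
        intro k
        induction k with
        | zero => intro y; rfl
        | succ k ih =>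
          intro y
          rw [Function.iterate_succ_apply, pow_succ]
          change (s ^ k) (σ y) = _
          rw [ih]
      rw [h3, hσ]
    have h3 : ((l : AddMonoid.End A) * r) x = 0 := by
      change (l : AddMonoid.End A) (r x) = 0
      rw [AddMonoid.End.natCast_apply, ← map_nsmul, hx', map_zero]
    have h4 : (s ^ l + (-1) ^ l) x = 0 := by
      rcases hl.eq_two_or_odd' with h5 | h5
      · subst h5
        rw [neg_one_sq]
        change (s ^ 2) x + x = 0
        rw [h2, ← two_nsmul, hx']
      · rw [h5.neg_one_pow]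
        change (s ^ l) x + -x = 0
        rw [h2, add_neg_cancel]
    rw [h1]
    change (s ^ l + (-1) ^ l) x + ((l : AddMonoid.End A) * r) x = 0
    rw [h3, h4, add_zero]
  rw [← htop, pow_mul]
  exact hstep l

/-- the number of the elements of order dividing `l` -/
theorem tor_card_le {l c : ℕ} (hl : l.Prime) (hc : padicValNat l (Nat.card A) ≤ c) :
    Nat.card (tor A l) ≤ l ^ c := by
  have hlf : Fact l.Prime := ⟨hl⟩
  have h1 : ∀ q : ℕ, q.Prime → q ∣ Nat.card (tor A l) → q = l := by
    intro q hq hd
    have hqf : Fact q.Prime := ⟨hq⟩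
    obtain ⟨x, hx⟩ := exists_prime_addOrderOf_dvd_card' q hd
    have h2 : l • x = 0 := by
      apply Subtype.ext
      exact x.2
    have h3 := addOrderOf_dvd_of_nsmul_eq_zero h2
    rw [hx] at h3
    exact (Nat.prime_dvd_prime_iff_eq hq hl).1 h3
  have h2 : Nat.card (tor A l) = l ^ (Nat.card (tor A l)).primeFactorsList.length :=
    Nat.eq_prime_pow_of_unique_prime_dvd Nat.card_pos.ne' (fun {q} hq hd => h1 q hq hd)
  have h3 : Nat.card (tor A l) ∣ Nat.card A := AddSubgroup.card_addSubgroup_dvd_card _
  rw [h2] at h3 ⊢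
  have h4 := val_dvd (p := l) Nat.card_pos.ne' h3
  rw [padicValNat.prime_pow] at h4
  exact Nat.pow_le_pow_right hl.pos (h4.trans hc)

end
end Pool.Agent.H515.LP
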