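import Pool.Agent.H515.LP.Main

/-! # Finite decomposition in cyclotomic `ℤ_p`-extensions -/

set_option autoImplicit false
set_option linter.unusedSectionVars false
set_option linter.deprecated false

namespace Pool.Agent.H515.LP

open NumberField IsDedekindDomain Pool.Agent.Q5.BR Pool.Agent.Q92.AR Pool.Agent.Q106.AR
open Pool.Agent.H515.CH
open Pool.Agent.TeamU (act mem_act)
open Pool.Agent.Q280.AR (under_under rdeg_tower)

/-- the order of `x` modulo `p ^ n` -/
theorem ord_bound' {p x : ℕ} (hp : p.Prime) (hx : 1 < x) (hxp : ¬ p ∣ x) (n d : ℕ) (hd : d ≠ 0)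
    (h : p ^ n ∣ x ^ d - 1) : p ^ n ∣ (x ^ (2 * (p - 1)) - 1) * d := by
  have hpf : Fact p.Prime := ⟨hp⟩
  have hx1 : 1 < x ^ (2 * (p - 1)) := Nat.one_lt_pow (by have := hp.two_le; omega) hx
  have hxp' : ¬ p ∣ x ^ (2 * (p - 1)) := fun h => hxp (hp.dvd_of_dvd_pow h)
  have hx0 : x ^ (2 * (p - 1)) - 1 ≠ 0 := by omega
  have h1 : p ^ n ∣ (x ^ (2 * (p - 1))) ^ d - 1 := by
    refine h.trans ?_
    have h2 := Nat.sub_dvd_pow_sub_pow (x ^ d) 1 (2 * (p - 1))
    rw [one_pow, ← pow_mul, mul_comm, pow_mul] at h2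
    exact h2
  have h2 : (x ^ (2 * (p - 1))) ^ d - 1 ≠ 0 := by
    have := Nat.one_lt_pow hd hx1
    omega
  have h3 := (padicValNat_dvd_iff_le (hp := hpf) h2).1 h1
  rw [padicValNat_dvd_iff_le (hp := hpf) (mul_ne_zero hx0 hd), padicValNat.mul hx0 hd]
  refine h3.trans ?_
  rcases hp.eq_two_or_odd' with h4 | h4
  · subst h4
    have h5 : 2 ∣ x - 1 := by omega
    have h6 := padicValNat.pow_two_sub_pow (x := x) (y := 1) hx h5 hxp (n := 2 * d) (by omega)
      (even_two_mul d)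
    have h7 := padicValNat.pow_two_sub_pow (x := x) (y := 1) hx h5 hxp (n := 2) (by omega) even_two
    rw [padicValNat.mul two_ne_zero hd, one_pow, pow_mul] at h6
    rw [one_pow] at h7
    have h8 : 2 * (2 - 1) = 2 := rfl
    rw [h8]
    omega
  · have h5 : p ∣ x ^ (2 * (p - 1)) - 1 := by
      rw [mul_comm, pow_mul]
      have h6 : x ^ (p - 1) ≡ 1 [MOD p] := by
        have h7 := Nat.ModEq.pow_totient (n := p) (x := x)
          ((Nat.Prime.coprime_iff_not_dvd hp).2 hxp).symm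
        rwa [Nat.totient_prime hp] at h7
      have h7 : (x ^ (p - 1)) ^ 2 ≡ 1 ^ 2 [MOD p] := h6.pow 2
      rw [one_pow] at h7
      exact (Nat.modEq_iff_dvd' (by rw [← pow_mul, mul_comm]; exact hx1.le)).1 h7.symm
    have h6 := padicValNat.pow_sub_pow (p := p) h4 hx1 h5 hxp' hd
    rw [one_pow] at h6
    exact h6.le

section
variable {F : Type} [Field F] [NumberField F]

/-- a prime not above `p`: the roots of unity remain distinct -/
theorem norm_one {p m : ℕ} (hp : p.Prime) {z : 𝓞 F} (hz : IsPrimitiveRoot z (p ^ m))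
    (W : HeightOneSpectrum (𝓞 F)) (hW : (p : 𝓞 F) ∉ W.asIdeal) :
    p ^ m ∣ Ideal.absNorm W.asIdeal - 1 := by
  classical
  have hmax : W.asIdeal.IsMaximal := W.isMaximal
  let _ : Field (𝓞 F ⧸ W.asIdeal) := Ideal.Quotient.field W.asIdeal
  have hfin : Finite (𝓞 F ⧸ W.asIdeal) := Ideal.finiteQuotientOfFreeOfNeBot _ W.ne_bot
  have hfin' : Fintype (𝓞 F ⧸ W.asIdeal) := Fintype.ofFinite _
  have h1 : NeZero ((p ^ m : ℕ) : 𝓞 F ⧸ W.asIdeal) := by
    refine ⟨?_⟩
    rw [Nat.cast_pow]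
    apply pow_ne_zero
    intro h
    apply hW
    rw [← Ideal.Quotient.eq_zero_iff_mem, map_natCast]
    exact h
  have h2 : Polynomial.IsRoot (Polynomial.cyclotomic (p ^ m) (𝓞 F)) z :=
    hz.isRoot_cyclotomic (pow_pos hp.pos m)
  have h3 : Polynomial.IsRoot (Polynomial.cyclotomic (p ^ m) (𝓞 F ⧸ W.asIdeal))
      (Ideal.Quotient.mk W.asIdeal z) := by
    rw [← Polynomial.map_cyclotomic (p ^ m) (Ideal.Quotient.mk W.asIdeal)]
    exact h2.map
  have h4 : IsPrimitiveRoot (Ideal.Quotient.mk W.asIdeal z) (p ^ m) :=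
    Polynomial.isRoot_cyclotomic_iff.1 h3
  have h5 : (Ideal.Quotient.mk W.asIdeal z) ≠ 0 := h4.ne_zero (pow_ne_zero m hp.ne_zero)
  have h6 := FiniteField.pow_card_sub_one_eq_one _ h5
  have h7 := h4.dvd_of_pow_eq_one _ h6
  rw [← Nat.card_eq_fintype_card] at h7
  exact h7

theorem p_mem {p : ℕ} (hp : p.Prime) (q : HeightOneSpectrum (𝓞 F))
    (hd : p ∣ Ideal.absNorm q.asIdeal) : (p : 𝓞 F) ∈ q.asIdeal := by
  have hpf : Fact p.Prime := ⟨hp⟩
  have hmax : q.asIdeal.IsMaximal := q.isMaximal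
  let _ : Field (𝓞 F ⧸ q.asIdeal) := Ideal.Quotient.field q.asIdeal
  have hfin : Finite (𝓞 F ⧸ q.asIdeal) := Ideal.finiteQuotientOfFreeOfNeBot _ q.ne_bot
  have hd' : p ∣ Nat.card (𝓞 F ⧸ q.asIdeal) := hd
  obtain ⟨x, hx⟩ := exists_prime_addOrderOf_dvd_card' p hd'
  have h1 : p • x = 0 := by
    have := addOrderOf_nsmul_eq_zero x
    rwa [hx] at this
  have h2 : x ≠ 0 := by
    rintro rfl
    rw [addOrderOf_zero] at hx
    exact hp.one_lt.ne hx
  rw [nsmul_eq_mul] at h1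
  have h3 := (mul_eq_zero.1 h1).resolve_right h2
  rw [← Ideal.Quotient.eq_zero_iff_mem, map_natCast]
  exact h3

/-- a prime above `p` -/
theorem val_p {p m : ℕ} (hp : p.Prime) {z : 𝓞 F} (hz : IsPrimitiveRoot z (p ^ (m + 1)))
    (W : HeightOneSpectrum (𝓞 F)) (hW : (p : 𝓞 F) ∈ W.asIdeal) :
    (p : 𝓞 F) ∈ W.asIdeal ^ (p ^ (m + 1)).totient := by
  classical
  have hpf : Fact p.Prime := ⟨hp⟩
  have hmax : W.asIdeal.IsMaximal := W.isMaximal
  let _ : Field (𝓞 F ⧸ W.asIdeal) := Ideal.Quotient.field W.asIdeal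
  have hc : CharP (𝓞 F ⧸ W.asIdeal) p := (CharP.charP_iff_prime_eq_zero hp).2 (by
    have h := Ideal.Quotient.eq_zero_iff_mem.2 hW
    rwa [map_natCast] at h)
  have h1 : ∀ y : 𝓞 F, y ^ p ^ (m + 1) = 1 → 1 - y ∈ W.asIdeal := by
    intro y hy
    rw [← Ideal.Quotient.eq_zero_iff_mem, map_sub, map_one]
    have h2 := sub_pow_char_pow (1 : 𝓞 F ⧸ W.asIdeal) (Ideal.Quotient.mk W.asIdeal y)
      (p := p) (n := m + 1)
    rw [← map_pow, hy, map_one, one_pow, sub_self] at h2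
    exact eq_zero_of_pow_eq_zero h2
  have h2 : (p : 𝓞 F) = ∏ μ ∈ primitiveRoots (p ^ (m + 1)) (𝓞 F), (1 - μ) := by
    have h3 := Polynomial.eval_one_cyclotomic_prime_pow (R := 𝓞 F) (p := p) m
    rw [Polynomial.cyclotomic_eq_prod_X_sub_primitiveRoots hz, Polynomial.eval_prod] at h3
    rw [← h3]
    refine Finset.prod_congr rfl fun μ _ => ?_
    simp
  rw [h2, ← hz.card_primitiveRoots]
  rw [← Finset.prod_const]
  refine Ideal.prod_mem_prod fun μ hμ => h1 μ ?_
  exact (isPrimitiveRoot_of_mem_primitiveRoots hμ).pow_eq_one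

end

section
variable {k E F : Type} [Field k] [NumberField k] [Field E] [NumberField E] [Field F]
  [NumberField F] [Algebra k E] [Algebra E F] [Algebra k F] [IsScalarTower k E F]

/-- the constant at the prime `q` -/
noncomputable def bq (p : ℕ) (q : HeightOneSpectrum (𝓞 k)) : ℕ :=
  (Ideal.absNorm q.asIdeal) ^ (2 * (p - 1)) + (dvI (Ideal.span {(p : 𝓞 k)}) q).toNat

theorem under_p {p : ℕ} (W : HeightOneSpectrum (𝓞 F)) :
    (p : 𝓞 k) ∈ (W.under (𝓞 k)).asIdeal ↔ (p : 𝓞 F) ∈ W.asIdeal := by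
  change algebraMap (𝓞 k) (𝓞 F) (p : 𝓞 k) ∈ W.asIdeal ↔ _
  rw [map_natCast]

/-- the local degree at `W` is large -/
theorem ld_large {p m : ℕ} (hp : p.Prime) {z : 𝓞 F} (hz : IsPrimitiveRoot z (p ^ (m + 1)))
    (W : HeightOneSpectrum (𝓞 F)) :
    (p ^ (m + 1)).totient ≤ bq p (W.under (𝓞 k)) * ld k W := by
  classical
  have hr := rdeg_pos' (F := k) W
  have hi := ri_pos (F := k) W
  by_cases hW : (p : 𝓞 F) ∈ W.asIdeal
  · have h1 := val_p hp hz W hW
    have hne : Ideal.span {(p : 𝓞 F)} ≠ ⊥ := by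
      rw [Ne, Ideal.span_singleton_eq_bot]
      exact_mod_cast hp.ne_zero
    have hne' : Ideal.span {(p : 𝓞 k)} ≠ ⊥ := by
      rw [Ne, Ideal.span_singleton_eq_bot]
      exact_mod_cast hp.ne_zero
    have h2 : Ideal.span {(p : 𝓞 F)} ≤ W.asIdeal ^ (p ^ (m + 1)).totient := by
      rw [Ideal.span_singleton_le_iff_mem]
      exact h1
    have h3 := (le_pow_iff hne W _).1 h2
    have h4 : (Ideal.span {(p : 𝓞 k)}).map (algebraMap (𝓞 k) (𝓞 F)) = Ideal.span {(p : 𝓞 F)} := by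
      rw [Ideal.map_span, Set.image_singleton, map_natCast]
    have h5 := cn_dvI (F := k) (E := F) _ hne'
    rw [h4] at h5
    rw [← h5, cn_apply] at h3
    have h6 : 0 ≤ dvI (Ideal.span {(p : 𝓞 k)}) (W.under (𝓞 k)) := by
      rw [dvI_apply]
      exact FractionalIdeal.count_coe_nonneg k _ _
    have h7 : ((p ^ (m + 1)).totient : ℤ) ≤
        ((ri k W * (dvI (Ideal.span {(p : 𝓞 k)}) (W.under (𝓞 k))).toNat : ℕ) : ℤ) := by
      push_cast
      rw [Int.toNat_of_nonneg h6]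
      exact h3
    have h8 : (p ^ (m + 1)).totient ≤
        ri k W * (dvI (Ideal.span {(p : 𝓞 k)}) (W.under (𝓞 k))).toNat := by exact_mod_cast h7
    unfold bq ld
    refine h8.trans ?_
    rw [mul_comm]
    exact Nat.mul_le_mul (Nat.le_add_left _ _) (Nat.le_mul_of_pos_left _ hr)
  · have h1 := norm_one hp hz W hW
    have h2 := absNorm_rdeg (K := k) W
    have hN := Pool.Agent.Q280.AR.two_le_absNorm k (W.under (𝓞 k))
    have hnp : ¬ p ∣ Ideal.absNorm (W.under (𝓞 k)).asIdeal := by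
      intro hd
      apply hW
      rw [← under_p (k := k)]
      exact p_mem hp _ hd
    rw [h2] at h1
    have h3 := ord_bound' hp (by omega) hnp (m + 1) (rdeg k W) hr.ne' h1
    have h4 := Nat.le_of_dvd (Nat.mul_pos (by
      have := Nat.one_lt_pow (n := 2 * (p - 1)) (by have := hp.two_le; omega)
        (show 1 < Ideal.absNorm (W.under (𝓞 k)).asIdeal by omega)
      omega) hr) h3
    refine (Nat.totient_le _).trans (h4.trans ?_)
    unfold bq ld
    exact Nat.mul_le_mul ((Nat.sub_le _ _).trans (Nat.le_add_right _ _))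
      (Nat.le_mul_of_pos_right _ hi)

/-- the number of the primes above `q` -/
theorem above_card {p m : ℕ} (hp : p.Prime) {z : 𝓞 F} (hz : IsPrimitiveRoot z (p ^ (m + 1)))
    (hF : Module.finrank k F ≤ (p ^ (m + 1)).totient) (q : HeightOneSpectrum (𝓞 k)) :
    (above E q).card ≤ bq p q := by
  classical
  have h1 : ∀ w ∈ above E q, Module.finrank k E ≤ bq p q * ld k w := by
    intro w hw
    obtain ⟨W, hW⟩ := Pool.Agent.Q182.AR.exists_above (F := E) (E := F) w
    have h2 := ld_large (k := k) hp hz W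
    rw [ld_tower k E F W, hW, ← under_under k E F W, hW, mem_above.1 hw] at h2
    have h3 : ld E W ≤ Module.finrank E F := ld_le W
    have h4 := Module.finrank_mul_finrank k E F
    have h5 : 0 < Module.finrank E F := Module.finrank_pos
    have h6 : Module.finrank k E * Module.finrank E F ≤
        (bq p q * ld k w) * Module.finrank E F := by
      rw [h4]
      refine hF.trans (h2.trans ?_)
      rw [mul_assoc, mul_comm (ld E W)]
      exact Nat.mul_le_mul_left _ (Nat.mul_le_mul_left _ h3)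
    exact Nat.le_of_mul_le_mul_right h6 h5
  have h2 := Finset.sum_le_sum h1
  rw [Finset.sum_const, ← Finset.mul_sum, sum_ld, smul_eq_mul] at h2
  exact Nat.le_of_mul_le_mul_right h2 Module.finrank_pos

end

/-- every layer is contained in the field obtained by adjoining a root of unity of `p`-power order to `k` -/
def Cyclo (p : ℕ) (k : IntermediateField ℚ ℂ) (E : ℕ → IntermediateField ℚ ℂ) : Prop :=
  ∀ n, ∃ (m : ℕ) (ζ : ℂ), IsPrimitiveRoot ζ (p ^ m) ∧ E n ≤ k ⊔ IntermediateField.adjoin ℚ {ζ}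

/-- one may take the root of unity of order at least `p` -/
theorem cyclo_succ {p : ℕ} (hp : p.Prime) {k : IntermediateField ℚ ℂ} {E : IntermediateField ℚ ℂ}
    (h : ∃ (m : ℕ) (ζ : ℂ), IsPrimitiveRoot ζ (p ^ m) ∧ E ≤ k ⊔ IntermediateField.adjoin ℚ {ζ}) :
    ∃ (m : ℕ) (ζ : ℂ), IsPrimitiveRoot ζ (p ^ (m + 1)) ∧
      E ≤ k ⊔ IntermediateField.adjoin ℚ {ζ} := by
  obtain ⟨m, ζ, h1, h2⟩ := h
  have h0 : (p ^ (m + 1)) ≠ 0 := pow_ne_zero _ hp.ne_zero
  have h3 := Complex.isPrimitiveRoot_exp (p ^ (m + 1)) h0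
  set ξ := Complex.exp (2 * Real.pi * Complex.I / (p ^ (m + 1) : ℕ)) with hξ
  refine ⟨m, ξ, h3, h2.trans (sup_le_sup_left ?_ k)⟩
  rw [IntermediateField.adjoin_simple_le_iff]
  have h4 : IsPrimitiveRoot (ξ ^ p) (p ^ m) := h3.pow (Nat.pos_of_ne_zero h0) (by ring)
  have : NeZero (p ^ m) := ⟨pow_ne_zero _ hp.ne_zero⟩
  obtain ⟨i, _, hi⟩ := h4.eq_pow_of_pow_eq_one h1.pow_eq_one
  rw [← hi]
  exact pow_mem (pow_mem (IntermediateField.mem_adjoin_simple_self ℚ ξ) p) i

theorem few_cyc {p : ℕ} (hp : p.Prime) {k K : IntermediateField ℚ ℂ} [NumberField k]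
    [NumberField K] (h1 : k ≤ K) : ∃ B : ℕ, ∀ (E : IntermediateField ℚ ℂ) (_ : NumberField E)
      (m : ℕ) (ζ : ℂ), IsPrimitiveRoot ζ (p ^ (m + 1)) →
        E ≤ k ⊔ IntermediateField.adjoin ℚ {ζ} → Few k K E B := by
  classical
  let a1 : Algebra k K := inc h1
  let T := (Pool.Agent.Q14.AR.ramified_finite (K := k) (M := K)).toFinset
  refine ⟨∑ q ∈ T, bq p q, fun E hE m ζ hζ hEF => ?_⟩
  intro n1 n2 n3 h2 h3
  let a2 : Algebra k E := inc h3
  have hpos : 0 < p ^ (m + 1) := pow_pos hp.pos _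
  have hint : IsIntegral ℚ ζ := (hζ.isIntegral hpos).tower_top
  have hC : FiniteDimensional ℚ (IntermediateField.adjoin ℚ {ζ}) :=
    IntermediateField.adjoin.finiteDimensional hint
  have hkf : FiniteDimensional ℚ k := inferInstance
  have hFf : FiniteDimensional ℚ ↥(k ⊔ IntermediateField.adjoin ℚ {ζ}) := sup_fin hkf hC
  have hFn : NumberField ↥(k ⊔ IntermediateField.adjoin ℚ {ζ}) := nf hFf
  let a3 : Algebra E ↥(k ⊔ IntermediateField.adjoin ℚ {ζ}) := inc hEF
  let a4 : Algebra k ↥(k ⊔ IntermediateField.adjoin ℚ {ζ}) := inc (h3.trans hEF)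
  have t1 : IsScalarTower k E ↥(k ⊔ IntermediateField.adjoin ℚ {ζ}) :=
    IsScalarTower.of_algebraMap_eq fun x => rfl
  -- the degree
  have d1 : Module.finrank ℚ (IntermediateField.adjoin ℚ {ζ}) = (p ^ (m + 1)).totient := by
    rw [IntermediateField.adjoin.finrank hint, ← Polynomial.cyclotomic_eq_minpoly_rat hζ hpos,
      Polynomial.natDegree_cyclotomic]
  have d2 := IntermediateField.finrank_sup_le k (IntermediateField.adjoin ℚ {ζ})
  have t2 : IsScalarTower ℚ k ↥(k ⊔ IntermediateField.adjoin ℚ {ζ}) :=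
    IsScalarTower.of_algebraMap_eq fun x => rfl
  have d3 := Module.finrank_mul_finrank ℚ k ↥(k ⊔ IntermediateField.adjoin ℚ {ζ})
  rw [← d3, d1] at d2
  have d4 : Module.finrank k ↥(k ⊔ IntermediateField.adjoin ℚ {ζ}) ≤ (p ^ (m + 1)).totient :=
    Nat.le_of_mul_le_mul_left d2 Module.finrank_pos
  -- the root of unity
  have hmem : ζ ∈ k ⊔ IntermediateField.adjoin ℚ {ζ} :=
    (le_sup_right : IntermediateField.adjoin ℚ {ζ} ≤ _)
      (IntermediateField.mem_adjoin_simple_self ℚ ζ)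
  have hζ' : IsPrimitiveRoot (⟨ζ, hmem⟩ : ↥(k ⊔ IntermediateField.adjoin ℚ {ζ})) (p ^ (m + 1)) :=
    IsPrimitiveRoot.of_map_of_injective
      (f := (k ⊔ IntermediateField.adjoin ℚ {ζ}).val.toRingHom) hζ
      (RingHom.injective _)
  have : NeZero (p ^ (m + 1)) := ⟨hpos.ne'⟩
  have hz : IsPrimitiveRoot hζ'.toInteger (p ^ (m + 1)) := hζ'.toInteger_isPrimitiveRoot
  -- the count
  have e1 : cb k K E = (cb_fin k K E).toFinset.card := by
    rw [← Set.ncard_eq_toFinset_card _ (cb_fin k K E)]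
    rfl
  have e2 : (cb_fin k K E).toFinset ⊆ T.biUnion (fun q => above E q) := by
    intro u hu
    rw [Set.Finite.mem_toFinset] at hu
    have hu' : ¬ Unramified K (u.under (𝓞 k)) := hu
    rw [Finset.mem_biUnion]
    refine ⟨u.under (𝓞 k), ?_, mem_above.2 rfl⟩
    rw [Set.Finite.mem_toFinset]
    exact hu'
  change cb k K E ≤ _
  rw [e1]
  refine (Finset.card_le_card e2).trans (Finset.card_biUnion_le.trans ?_)
  exact Finset.sum_le_sum fun q _ => above_card (E := E)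
    (F := ↥(k ⊔ IntermediateField.adjoin ℚ {ζ})) hp hz d4 q

end Pool.Agent.H515.LP
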