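import Pool.Agent.H515.LP.Alg
import Pool.Agent.H515.RD.Fixc
import Pool.Agent.H515.KV.Ai

/-! # The gap theorem and the rank bound for number fields -/

set_option autoImplicit false
set_option linter.unusedSectionVars false
set_option linter.deprecated false

namespace Pool.Agent.H515.LP

open NumberField IsDedekindDomain Pool.Agent.Q5.BR Pool.Agent.Q92.AR Pool.Agent.Q106.AR
open Pool.Agent.H515.CH
open Pool.Agent.TeamU (act mem_act)
open Pool.Agent.Q280.AR (under_under rdeg_tower)

section
variable {k L E : Type} [Field k] [NumberField k] [Field L] [NumberField L] [Field E]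
  [NumberField E] [Algebra k L] [Algebra L E] [Algebra k E] [IsScalarTower k L E]

theorem sb_res (g : E ≃ₐ[L] E) (a : DC E) : sb g a = sb (g.restrictScalars k) a := rfl

theorem sb_mul (g h : E ≃ₐ[k] E) (a : DC E) : sb (g * h) a = sb g (sb h a) := by
  obtain ⟨D, rfl⟩ := QuotientAddGroup.mk_surjective a
  rw [sb_mk, sb_mk, sb_mk, Pool.Agent.Q182.AR.sD_mul]
  rfl

theorem sb_one (a : DC E) : sb (1 : E ≃ₐ[k] E) a = a := by
  have h := sb_mul (k := k) (1 : E ≃ₐ[k] E) 1 a
  rw [mul_one] at h
  have h2 : sb (1 : E ≃ₐ[k] E) a = sb (1 : E ≃ₐ[k] E) (sb (1 : E ≃ₐ[k] E) a) := h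
  have hinj : Function.Injective (sb (1 : E ≃ₐ[k] E)) := by
    intro x y hxy
    have e : ∀ z, sb (1 : E ≃ₐ[k] E) z = z := by
      intro z
      obtain ⟨D, rfl⟩ := QuotientAddGroup.mk_surjective z
      rw [sb_mk]
      congr 1
      ext w
      have h3 := Pool.Agent.Q225.AR.sD_act (1 : E ≃ₐ[k] E) D w
      rwa [Pool.Agent.TeamU.act_one] at h3
    rwa [e, e] at hxy
  exact (hinj h2).symm

theorem sb_pow (g : E ≃ₐ[k] E) (m : ℕ) (a : DC E) : sb (g ^ m) a = (sb g)^[m] a := by
  induction m generalizing a with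
  | zero => rw [pow_zero, sb_one]; rfl
  | succ m ih => rw [pow_succ, sb_mul, ih, Function.iterate_succ_apply]

/-- **The gap theorem.** -/
theorem gap_field [IsGalois k E] {p l n : ℕ} (hp : p.Prime) (hl : l.Prime) (hne : l ≠ p)
    (hn : 1 ≤ n) (σ : E ≃ₐ[k] E) (hσ : ∀ g : E ≃ₐ[k] E, g ∈ Subgroup.zpowers σ)
    (hkE : Module.finrank k E = p ^ n) (hLE : Module.finrank L E = p)
    (hc : Nat.card (tor (DC E) l) ≤ p ^ n) :
    padicValNat l (classNumber E) = padicValNat l (classNumber L) := by
  have hG : IsGalois L E := IsGalois.tower_top_of_isGalois k L E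
  rw [← card_DC E, ← card_DC L]
  refine gap hp hl hne hn (nb L E) (jb L E) (fun b => ?_) (sb σ) (fun a => ?_) (fun a ha => ?_) hc
  · rw [nb_jb, hLE]
  · rw [← hkE]
    exact sb_finrank σ a
  · rw [Pool.Agent.H515.RD.jb_nb]
    have hord : orderOf σ = p ^ n := by
      rw [orderOf_eq_card_of_forall_mem_zpowers hσ, IsGalois.card_aut_eq_finrank, hkE]
    have h1 : ∀ g : E ≃ₐ[L] E, sb g a = a := by
      intro g
      rw [sb_res (k := k)]
      have hfin : IsOfFinOrder σ := isOfFinOrder_of_finite σ
      obtain ⟨m, hm⟩ : ∃ m : ℕ, σ ^ m = g.restrictScalars k := by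
        have := hσ (g.restrictScalars k)
        rw [← hfin.mem_powers_iff_mem_zpowers] at this
        exact this
      have h2 : g ^ p = 1 := by
        rw [← hLE, ← IsGalois.card_aut_eq_finrank]
        exact pow_card_eq_one'
      have h3 : σ ^ (m * p) = 1 := by
        rw [pow_mul, hm]
        ext x
        have h4 : ∀ (j : ℕ) (x : E), ((g.restrictScalars k) ^ j) x = (g ^ j) x := by
          intro j
          induction j with
          | zero => intro x; rfl
          | succ j ih =>
            intro x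
            rw [pow_succ, pow_succ]
            exact ih _
        rw [h4, h2]
        rfl
      have h4 := orderOf_dvd_of_pow_eq_one h3
      rw [hord] at h4
      obtain ⟨j, hj⟩ := Nat.exists_eq_add_of_le' hn
      subst hj
      rw [pow_succ] at h4
      obtain ⟨i, hi⟩ := Nat.dvd_of_mul_dvd_mul_right hp.pos h4
      rw [← hm, hi, pow_mul, sb_pow]
      have h5 : sb (σ ^ p ^ j) a = a := by
        rw [sb_pow]
        exact ha
      exact Function.iterate_fixed h5 i
    rw [Finset.sum_congr rfl fun g _ => h1 g, Finset.sum_const, Finset.card_univ,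
      ← Nat.card_eq_fintype_card, IsGalois.card_aut_eq_finrank, hLE]

end

section
variable {E M : Type} [Field E] [NumberField E] [Field M] [NumberField M] [Algebra E M]

/-- the number of the ramified primes -/
noncomputable def nr (E M : Type) [Field E] [NumberField E] [Field M] [NumberField M]
    [Algebra E M] : ℕ := Nat.card {u : HeightOneSpectrum (𝓞 E) // ¬ Unramified M u}

theorem nr_eq : nr E M = (Pool.Agent.Q14.AR.ramified_finite (K := E) (M := M)).toFinset.card := by
  rw [← Set.ncard_eq_toFinset_card _ (Pool.Agent.Q14.AR.ramified_finite (K := E) (M := M))]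
  rfl

/-- the `p`-part of the ambiguous class number formula, with `p = 2` allowed -/
theorem chev_val' [IsGalois E M] {σ : M ≃ₐ[E] M} (hσ : ∀ g : M ≃ₐ[E] M, g ∈ Subgroup.zpowers σ)
    {p : ℕ} [Fact p.Prime] (hR : p ≠ 2 ∨ IsEmpty (RealRam E M)) (hn : Module.finrank E M = p)
    (T : Finset (HeightOneSpectrum (𝓞 E)))
    (h1 : ∀ w : HeightOneSpectrum (𝓞 M), w.under (𝓞 E) ∈ T → ri E w = p)
    (h2 : ∀ w : HeightOneSpectrum (𝓞 M), w.under (𝓞 E) ∉ T → ri E w = 1) :
    padicValNat p ((PP M).relIndex (AA σ)) + padicValNat p (ni E M) + 1 =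
      padicValNat p (classNumber E) + T.card := by
  have hpp : p.Prime := Fact.out
  have C1 := chevalley σ hσ
  have hP1 : (PP M).relIndex (AA σ) ≠ 0 := by
    rw [← Pool.Agent.H515.CH.card_fixed]
    exact Nat.card_pos.ne'
  have hni0 := ni_ne σ hσ
  have hn0 : Module.finrank E M ≠ 0 := Module.finrank_pos.ne'
  have hL1 : (PP M).relIndex (AA σ) * ni E M * Module.finrank E M ≠ 0 :=
    mul_ne_zero (mul_ne_zero hP1 hni0) hn0
  have hR1 := hL1
  rw [C1] at hR1
  have hai1 : ai σ ≠ 0 := right_ne_zero_of_mul (right_ne_zero_of_mul hR1)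
  have V1 := congrArg (padicValNat p) C1
  rw [val_mul (mul_ne_zero hP1 hni0) hn0, val_mul hP1 hni0,
    val_mul (left_ne_zero_of_mul hR1) (right_ne_zero_of_mul hR1),
    val_mul index_PP_ne hai1, index_PP] at V1
  have h2' : padicValNat p (2 ^ Nat.card (RealRam E M)) = 0 := by
    rcases hR with hR | hR
    · apply padicValNat.eq_zero_of_not_dvd
      intro hd
      exact hR ((Nat.prime_dvd_prime_iff_eq hpp Nat.prime_two).1 (hpp.dvd_of_dvd_pow hd))
    · have : Nat.card (RealRam E M) = 0 := Nat.card_of_isEmpty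
      rw [this, pow_zero]
      exact padicValNat.one
  have hai := ai_eq hσ hn T h1 h2
  rw [hai, padicValNat.prime_pow, h2', hn, padicValNat_self] at V1
  omega

/-- the fixed classes in a cyclic extension of prime degree -/
theorem fixed_le [IsGalois E M] {l : ℕ} (hl : l.Prime) (hl2 : l ≠ 2 ∨ IsEmpty (RealRam E M))
    (hn : Module.finrank E M = l) (σ : M ≃ₐ[E] M) (hσ : ∀ g : M ≃ₐ[E] M, g ∈ Subgroup.zpowers σ) :
    padicValNat l (Nat.card (sb σ - AddMonoidHom.id (DC M)).ker) ≤
      padicValNat l (classNumber E) + nr E M := by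
  classical
  have hlf : Fact l.Prime := ⟨hl⟩
  have h := chev_val' hσ hl2 hn (Pool.Agent.Q14.AR.ramified_finite (K := E) (M := M)).toFinset
    (fun w hw => ?_) (fun w hw => ?_)
  · rw [Pool.Agent.H515.CH.card_fixed, nr_eq]
    omega
  · rw [Set.Finite.mem_toFinset] at hw
    have hw' : ¬ Unramified M (w.under (𝓞 E)) := hw
    rw [unramified_iff] at hw'
    push Not at hw'
    obtain ⟨w', h1, h2⟩ := hw'
    have h3 : ri E w ≠ 1 := by
      rw [ri_const (w := w) (w' := w') h1.symm]
      exact h2
    have h4 : ri E w ∣ l := by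
      rw [← hn]
      exact (Dvd.intro_left _ rfl).trans (ld_dvd w)
    exact ((Nat.dvd_prime hl).1 h4).resolve_left h3
  · rw [Set.Finite.mem_toFinset] at hw
    exact ri_eq_one (not_not.1 hw) rfl

/-- few elements of order `l` -/
theorem tor_le [IsGalois E M] {l : ℕ} (hl : l.Prime) (hl2 : l ≠ 2 ∨ IsEmpty (RealRam E M))
    (hn : Module.finrank E M = l) {C B : ℕ} (hC : padicValNat l (classNumber E) ≤ C)
    (hB : nr E M ≤ B) : Nat.card (tor (DC M) l) ≤ l ^ ((C + B) * l) := by
  have hlf : Fact l.Prime := ⟨hl⟩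
  have hcyc : IsCyclic (M ≃ₐ[E] M) := isCyclic_of_prime_card (p := l) (by
    rw [IsGalois.card_aut_eq_finrank, hn])
  obtain ⟨σ, hσ⟩ := hcyc
  refine rank_le hl (sb σ) (fun a => ?_) ((fixed_le hl hl2 hn σ hσ).trans (add_le_add hC hB))
  rw [← hn]
  exact sb_finrank σ a

end

section
variable {k K F E M : Type} [Field k] [NumberField k] [Field K] [NumberField K] [Field F]
  [NumberField F] [Field E] [NumberField E] [Field M] [NumberField M] [Algebra k K] [Algebra k F]
  [Algebra F K] [Algebra k E] [Algebra k M] [Algebra E M] [Algebra F M] [IsScalarTower k F K]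
  [IsScalarTower k E M] [IsScalarTower k F M]

/-- the number of the primes of `E` over the primes of `k` which ramify in `K` -/
noncomputable def cb (k K E : Type) [Field k] [NumberField k] [Field K] [NumberField K] [Field E]
    [NumberField E] [Algebra k K] [Algebra k E] : ℕ :=
  Nat.card {u : HeightOneSpectrum (𝓞 E) // ¬ Unramified K (u.under (𝓞 k))}

theorem cb_fin (k K E : Type) [Field k] [NumberField k] [Field K] [NumberField K] [Field E]
    [NumberField E] [Algebra k K] [Algebra k E] :
    {u : HeightOneSpectrum (𝓞 E) | ¬ Unramified K (u.under (𝓞 k))}.Finite := by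
  classical
  have h := Pool.Agent.Q14.AR.ramified_finite (K := k) (M := K)
  refine ((h.toFinset.biUnion (fun v => above E v)).finite_toSet).subset ?_
  intro u hu
  have hu' : ¬ Unramified K (u.under (𝓞 k)) := hu
  rw [Finset.mem_coe, Finset.mem_biUnion]
  refine ⟨u.under (𝓞 k), ?_, mem_above.2 rfl⟩
  rw [Set.Finite.mem_toFinset]
  exact hu'

theorem unram_bot {v : HeightOneSpectrum (𝓞 k)} (h : Unramified K v) : Unramified F v := by
  rw [unramified_iff] at h ⊢
  rintro w rfl
  obtain ⟨W, rfl⟩ := Pool.Agent.Q182.AR.exists_above (F := F) (E := K) w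
  have h1 := h W (under_under k F K W).symm
  rw [ri_tower k F K W] at h1
  exact Nat.eq_one_of_mul_eq_one_left h1

theorem ram_down [IsGalois k F] [IsGalois E M] (S : Sqr k F E M) {u : HeightOneSpectrum (𝓞 E)}
    (hu : ¬ Unramified M u) : ¬ Unramified K (u.under (𝓞 k)) := by
  intro h
  apply hu
  rw [unramified_iff]
  rintro W rfl
  refine unram_sq S W ?_
  rw [← under_under k E M W]
  exact unram_bot (K := K) h

theorem nr_le [IsGalois k F] [IsGalois E M] (S : Sqr k F E M) : nr E M ≤ cb k K E := by
  have hf : Finite {u : HeightOneSpectrum (𝓞 E) // ¬ Unramified K (u.under (𝓞 k))} :=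
    (cb_fin k K E).to_subtype
  exact Nat.card_le_card_of_injective (fun u => ⟨u.1, ram_down (K := K) S u.2⟩)
    fun a b hab => Subtype.ext (congrArg (fun z => z.1) hab)

theorem cb_le : cb F K M ≤ cb k K E * Module.finrank E M := by
  classical
  have h1 : cb F K M = (cb_fin F K M).toFinset.card := by
    rw [← Set.ncard_eq_toFinset_card _ (cb_fin F K M)]
    rfl
  have h2 : cb k K E = (cb_fin k K E).toFinset.card := by
    rw [← Set.ncard_eq_toFinset_card _ (cb_fin k K E)]
    rfl
  have h3 : (cb_fin F K M).toFinset ⊆ (cb_fin k K E).toFinset.biUnion (fun u => above M u) := by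
    intro W hW
    rw [Set.Finite.mem_toFinset] at hW
    have hW' : ¬ Unramified K (W.under (𝓞 F)) := hW
    rw [Finset.mem_biUnion]
    refine ⟨W.under (𝓞 E), ?_, mem_above.2 rfl⟩
    rw [Set.Finite.mem_toFinset]
    change ¬ Unramified K ((W.under (𝓞 E)).under (𝓞 k))
    intro h
    apply hW'
    apply unram_top (F := k)
    rw [under_under k F M W, ← under_under k E M W]
    exact h
  rw [h1, h2]
  refine (Finset.card_le_card h3).trans ?_
  refine Finset.card_biUnion_le_card_mul _ _ _ fun u _ => ?_
  rw [← sum_ld (E := M) u, Finset.card_eq_sum_ones]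
  exact Finset.sum_le_sum fun w _ => ld_pos w

end
end Pool.Agent.H515.LP
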