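import Pool.Agent.H515.LP.Main

/-! # Galois extensions of `l`-power degree are towers -/

set_option autoImplicit false
set_option linter.unusedSectionVars false
set_option linter.deprecated false

namespace Pool.Agent.H515.LP

open NumberField Pool.Agent.H515.CH

theorem gal_tower {l : ℕ} (hl : l.Prime) (s : ℕ) : ∀ (k K : IntermediateField ℚ ℂ)
    (_ : NumberField k) (_ : NumberField K) (h : k ≤ K) (_ : letI := inc h; IsGalois k K)
    (_ : letI := inc h; Module.finrank k K = l ^ s), Tower l k K := by
  have hlf : Fact l.Prime := ⟨hl⟩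
  induction s with
  | zero =>
    intro k K hk hK h hG hn
    let _ := inc h
    have hn' : Module.finrank k K = 1 := hn
    have h1 : K = k := by
      apply le_antisymm _ h
      intro x hx
      have h2 : (⊤ : Subalgebra k K) = ⊥ := by
        rw [← Subalgebra.bot_eq_top_iff_finrank_eq_one] at hn'
        exact hn'.symm
      have h3 : (⟨x, hx⟩ : K) ∈ (⊤ : Subalgebra k K) := Algebra.mem_top
      rw [h2, Algebra.mem_bot] at h3
      obtain ⟨y, hy⟩ := h3
      have h4 : (y : ℂ) = x := congrArg Subtype.val hy
      rw [← h4]
      exact y.2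
    rw [h1]
    exact Tower.refl k
  | succ s ih =>
    intro k K hk hK h hG hn
    let _ := inc h
    have hG' : IsGalois k K := hG
    have hn' : Module.finrank k K = l ^ (s + 1) := hn
    have hcard : Nat.card (K ≃ₐ[k] K) = l ^ (s + 1) := by
      rw [IsGalois.card_aut_eq_finrank, hn']
    obtain ⟨N, hNn, hNc⟩ := exists_normal l s hcard
    let F0 : IntermediateField k K := IntermediateField.fixedField N
    have hG0 : IsGalois k F0 := IsGalois.of_fixedField_normal_subgroup N
    have hf0 : Module.finrank F0 K = l ^ s := by
      rw [← hNc]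
      exact IntermediateField.finrank_fixedField_eq_card N
    have hf1 : Module.finrank k F0 = l := by
      have h1 := Module.finrank_mul_finrank k F0 K
      rw [hf0, hn', pow_succ'] at h1
      exact Nat.eq_of_mul_eq_mul_right (pow_pos hl.pos s) h1
    have t0 : IsScalarTower ℚ k K := IsScalarTower.of_algebraMap_eq fun x => rfl
    let F : IntermediateField ℚ ℂ := (F0.restrictScalars ℚ).map K.val
    have hmem : ∀ z : ℂ, z ∈ F ↔ ∃ x : K, x ∈ F0 ∧ (x : ℂ) = z := fun z => Iff.rfl
    have hkF : k ≤ F := by
      intro x hx
      rw [hmem]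
      exact ⟨⟨x, h hx⟩, F0.algebraMap_mem ⟨x, hx⟩, rfl⟩
    have hFK : F ≤ K := by
      intro x hx
      rw [hmem] at hx
      obtain ⟨y, -, rfl⟩ := hx
      exact y.2
    let _ : Algebra k F := inc hkF
    let _ : Algebra F K := inc hFK
    have t1 : IsScalarTower k F K := IsScalarTower.of_algebraMap_eq fun x => rfl
    let f : F0 →ₐ[k] F :=
      { toFun := fun x => ⟨((x : K) : ℂ), (hmem _).2 ⟨x, x.2, rfl⟩⟩
        map_one' := rfl
        map_mul' := fun _ _ => rfl
        map_zero' := rfl
        map_add' := fun _ _ => rfl
        commutes' := fun _ => rfl }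
    have hf : Function.Bijective f := by
      constructor
      · intro x y hxy
        apply Subtype.ext
        apply Subtype.ext
        exact congrArg (fun z : F => (z : ℂ)) hxy
      · rintro ⟨z, hz⟩
        obtain ⟨x, hx, hxz⟩ := (hmem z).1 hz
        exact ⟨⟨x, hx⟩, Subtype.ext hxz⟩
    let e : F0 ≃ₐ[k] F := AlgEquiv.ofBijective f hf
    have hGF : IsGalois k F := IsGalois.of_algEquiv e
    have hfF : Module.finrank k F = l := by
      rw [← hf1]
      exact e.toLinearEquiv.finrank_eq.symm
    have hGK : IsGalois F K := IsGalois.tower_top_of_isGalois k F K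
    have hfK : Module.finrank F K = l ^ s := by
      have h1 := Module.finrank_mul_finrank k F K
      rw [hfF, hn', pow_succ'] at h1
      exact Nat.eq_of_mul_eq_mul_left hl.pos h1
    have hfd : FiniteDimensional k F := FiniteDimensional.of_finrank_pos (by
      rw [hfF]
      exact hl.pos)
    have hcyc : IsCyclic (F ≃ₐ[k] F) := isCyclic_of_prime_card (p := l) (by
      rw [IsGalois.card_aut_eq_finrank, hfF])
    have hc : CyclicExt k F l := ⟨hkF, hGF, hcyc, hfF⟩
    exact Tower.step hc (ih F K (hc.fin hl.ne_zero) hK hFK hGK hfK)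

theorem Tower.trans {l : ℕ} {k F K : IntermediateField ℚ ℂ} (h1 : Tower l k F)
    (h2 : Tower l F K) : Tower l k K := by
  induction h1 with
  | refl k => exact h2
  | step h3 _ ih => exact Tower.step h3 (ih h2)

end Pool.Agent.H515.LP
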