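import Pool.Agent.H515.LP.Fld
import Pool.Agent.H515.Lay2

/-! # `l`-extensions and `ℤ_p`-extensions -/

set_option autoImplicit false
set_option linter.unusedSectionVars false
set_option linter.deprecated false

namespace Pool.Agent.H515.LP

open NumberField IsDedekindDomain Pool.Agent.Q5.BR Pool.Agent.Q92.AR Pool.Agent.Q106.AR
open Pool.Agent.H515.CH

/-- `K / k` is cyclic of degree `d` -/
def CyclicExt (k K : IntermediateField ℚ ℂ) (d : ℕ) : Prop :=
  ∃ h : k ≤ K, letI := inc h
    IsGalois k K ∧ IsCyclic (K ≃ₐ[k] K) ∧ Module.finrank k K = d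

/-- `E` is the sequence of the layers of a `ℤ_p`-extension of `k` -/
def IsZp (p : ℕ) (k : IntermediateField ℚ ℂ) (E : ℕ → IntermediateField ℚ ℂ) : Prop :=
  Monotone E ∧ ∀ n, CyclicExt k (E n) (p ^ n)

/-- a tower of cyclic extensions of degree `l` -/
inductive Tower (l : ℕ) : IntermediateField ℚ ℂ → IntermediateField ℚ ℂ → Prop
  | refl (k) : Tower l k k
  | step {k F K} : CyclicExt k F l → Tower l F K → Tower l k K

theorem Tower.le {l : ℕ} {k K : IntermediateField ℚ ℂ} (h : Tower l k K) : k ≤ K := by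
  induction h with
  | refl k => exact le_rfl
  | step h1 _ ih => exact h1.1.trans ih

theorem CyclicExt.fin {k K : IntermediateField ℚ ℂ} {d : ℕ} (h : CyclicExt k K d) (hd : d ≠ 0)
    [NumberField k] : NumberField K := by
  obtain ⟨h1, h2, h3, h4⟩ := h
  let _ := inc h1
  have : FiniteDimensional k K := FiniteDimensional.of_finrank_pos (by
    rw [h4]
    exact Nat.pos_of_ne_zero hd)
  exact NumberField.of_module_finite k K

/-- `E` contains `k`, and at most `B` primes of `E` lie over primes of `k` ramified in `K` -/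
def Few (k K E : IntermediateField ℚ ℂ) (B : ℕ) : Prop :=
  ∀ (_ : NumberField k) (_ : NumberField K) (_ : NumberField E) (h1 : k ≤ K) (h2 : k ≤ E),
    letI := inc h1
    letI := inc h2
    cb k K E ≤ B

theorem gap_cx {p l n : ℕ} (hp : p.Prime) (hl : l.Prime) (hne : l ≠ p)
    {F M N : IntermediateField ℚ ℂ} [NumberField F] [NumberField M] [NumberField N]
    (hM : CyclicExt F M (p ^ n)) (hN : CyclicExt F N (p ^ (n + 1))) (hMN : M ≤ N)
    (hc : Nat.card (tor (DC N) l) ≤ p ^ (n + 1)) :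
    padicValNat l (classNumber N) = padicValNat l (classNumber M) := by
  obtain ⟨h1, g1, c1, f1⟩ := hN
  obtain ⟨h2, g2, c2, f2⟩ := hM
  let a1 : Algebra F N := inc h1
  let a2 : Algebra F M := inc h2
  let a3 : Algebra M N := inc hMN
  have t1 : IsScalarTower F M N := IsScalarTower.of_algebraMap_eq fun x => rfl
  have g1' : IsGalois F N := g1
  have f1' : Module.finrank F N = p ^ (n + 1) := f1
  have f2' : Module.finrank F M = p ^ n := f2
  have f3 : Module.finrank M N = p := by
    have h := Module.finrank_mul_finrank F M N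
    rw [f1', f2', pow_succ] at h
    exact Nat.eq_of_mul_eq_mul_left (pow_pos hp.pos n) h
  obtain ⟨σ, hσ⟩ := c1
  exact gap_field (k := F) (L := M) (E := N) hp hl hne
    (Nat.succ_le_succ (Nat.zero_le n)) σ hσ f1' f3 hc

theorem step {p l : ℕ} (hp : p.Prime) (hl : l.Prime) (hne : l ≠ p) {k F K : IntermediateField ℚ ℂ}
    [NumberField k] [NumberField F] [NumberField K] (hR : l ≠ 2 ∨ IsEmpty (k →+* ℝ))
    {E : ℕ → IntermediateField ℚ ℂ} [∀ n, NumberField (E n)] (hE : IsZp p k E)
    (hF : CyclicExt k F l) (hFK : F ≤ K) {B C : ℕ} (hB : ∀ n, Few k K (E n) B)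
    (hC : ∀ n, padicValNat l (classNumber (E n)) ≤ C) :
    IsZp p F (fun n => F ⊔ E n) ∧ (∀ n, Few F K (F ⊔ E n) (B * l)) ∧
    ∀ (_ : ∀ n, NumberField ↥(F ⊔ E n)), ∀ n, l ^ ((C + B) * l) ≤ p ^ (n + 1) →
      padicValNat l (classNumber ↥(F ⊔ E (n + 1))) = padicValNat l (classNumber ↥(F ⊔ E n)) := by
  have hkF := hF.1
  have hcop : ∀ n, (p ^ n).Coprime l := fun n =>
    Nat.Coprime.pow_left n ((Nat.coprime_primes hp hl).2 (Ne.symm hne))
  have hnf : ∀ n, NumberField ↥(F ⊔ E n) := fun n =>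
    nf (sup_fin (inferInstance : FiniteDimensional ℚ F) (inferInstance : FiniteDimensional ℚ (E n)))
  -- the facts at the level `n`
  have key : ∀ n, CyclicExt F (F ⊔ E n) (p ^ n) ∧ Few F K (F ⊔ E n) (B * l) ∧
      Nat.card (tor (DC ↥(F ⊔ E n)) l) ≤ l ^ ((C + B) * l) := by
    intro n
    obtain ⟨hkE, hEG, hEc, hEf⟩ := hE.2 n
    have hFM : F ≤ F ⊔ E n := le_sup_left
    have hEM : E n ≤ F ⊔ E n := le_sup_right
    let a1 : Algebra k F := inc hkF
    let a2 : Algebra k (E n) := inc hkE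
    let a3 : Algebra F ↥(F ⊔ E n) := inc hFM
    let a4 : Algebra (E n) ↥(F ⊔ E n) := inc hEM
    let a5 : Algebra k ↥(F ⊔ E n) := inc (hkF.trans hFM)
    let a6 : Algebra F K := inc hFK
    let a7 : Algebra k K := inc (hkF.trans hFK)
    have t1 : IsScalarTower k F ↥(F ⊔ E n) := IsScalarTower.of_algebraMap_eq fun x => rfl
    have t2 : IsScalarTower k (E n) ↥(F ⊔ E n) := IsScalarTower.of_algebraMap_eq fun x => rfl
    have t3 : IsScalarTower k F K := IsScalarTower.of_algebraMap_eq fun x => rfl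
    have g1 : IsGalois k (E n) := hEG
    obtain ⟨hFh, hFG, hFc, hFf⟩ := hF
    have g2 : IsGalois k F := hFG
    have hFf' : Module.finrank k F = l := hFf
    have hEf' : Module.finrank k (E n) = p ^ n := hEf
    have top1 : IntermediateField.adjoin F (Set.range (algebraMap (E n) ↥(F ⊔ E n))) = ⊤ :=
      adj_top hFM hEM le_rfl
    have top2 : IntermediateField.adjoin (E n) (Set.range (algebraMap F ↥(F ⊔ E n))) = ⊤ :=
      adj_top hEM hFM (by rw [sup_comm])
    obtain ⟨S1, e1, e2⟩ := sqr_comp (k := k) (k' := E n) (F := F) (F' := ↥(F ⊔ E n)) top1 (by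
      rw [hFf', hEf']
      exact (hcop n).symm)
    obtain ⟨S2, e3, e4⟩ := sqr_comp (k := k) (k' := F) (F := E n) (F' := ↥(F ⊔ E n)) top2 (by
      rw [hFf', hEf']
      exact hcop n)
    have g3 : IsGalois F ↥(F ⊔ E n) := gal_comp (k := k) top1
    have g4 : IsGalois (E n) ↥(F ⊔ E n) := gal_comp (k := k) top2
    refine ⟨⟨hFM, g3, ?_, ?_⟩, ?_, ?_⟩
    · obtain ⟨τ, hτ⟩ := hEc
      obtain ⟨σ, h⟩ := S1.ext τ
      exact ⟨σ, S1.gen h hτ⟩
    · rw [← hEf']
      exact e1
    · intro n1 n2 n3 h1 h2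
      have h := cb_le (k := k) (K := K) (F := F) (E := E n) (M := ↥(F ⊔ E n))
      have h3 : cb k K (E n) ≤ B := hB n inferInstance inferInstance inferInstance _ _
      have h4 : Module.finrank (E n) ↥(F ⊔ E n) = l := e3.trans hFf'
      rw [h4] at h
      exact h.trans (Nat.mul_le_mul_right l h3)
    · have h3 : cb k K (E n) ≤ B := hB n inferInstance inferInstance inferInstance _ _
      refine tor_le (E := E n) (M := ↥(F ⊔ E n)) hl ?_ (e3.trans hFf') (hC n)
        ((nr_le (k := k) (K := K) (F := F) S2).trans h3)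
      rcases hR with hR | hR
      · exact Or.inl hR
      · refine Or.inr ⟨fun x => hR.false (x.1.comp (algebraMap k (E n)))⟩
  refine ⟨⟨fun a b hab => sup_le_sup_left (hE.1 hab) F, fun n => (key n).1⟩,
    fun n => (key n).2.1, fun _ n hn => ?_⟩
  exact gap_cx hp hl hne (key n).1 (key (n + 1)).1 (sup_le_sup_left (hE.1 (Nat.le_succ n)) F)
    ((key (n + 1)).2.2.trans hn)

theorem Tower.fin {l : ℕ} (hl : l ≠ 0) {k K : IntermediateField ℚ ℂ} (h : Tower l k K) :
    NumberField k → NumberField K := by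
  induction h with
  | refl k => exact id
  | step h1 _ ih =>
    intro hk
    exact ih (h1.fin hl)

/-- bounded valuations are eventually constant -/
theorem bdd_const {p l : ℕ} (hp : p.Prime) (hl : l.Prime) (hne : l ≠ p)
    {k : IntermediateField ℚ ℂ} [NumberField k] {E : ℕ → IntermediateField ℚ ℂ}
    [∀ n, NumberField (E n)] (hE : IsZp p k E) {C : ℕ}
    (hC : ∀ n, padicValNat l (classNumber (E n)) ≤ C) :
    ∃ γ N : ℕ, ∀ n, N ≤ n → padicValNat l (classNumber (E n)) = γ := by
  have h1 : ∀ n, l ^ C ≤ n → padicValNat l (classNumber (E (n + 1))) =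
      padicValNat l (classNumber (E n)) := by
    intro n hn
    refine gap_cx hp hl hne (hE.2 n) (hE.2 (n + 1)) (hE.1 (Nat.le_succ n)) ?_
    refine (tor_card_le hl (c := C) ?_).trans (hn.trans ?_)
    · rw [card_DC]
      exact hC (n + 1)
    · exact (Nat.le_succ n).trans (Nat.lt_pow_self hp.one_lt).le
  refine ⟨padicValNat l (classNumber (E (l ^ C))), l ^ C, fun n hn => ?_⟩
  induction n, hn using Nat.le_induction with
  | base => rfl
  | succ n hn ih => rw [h1 n hn, ih]

theorem main {p l : ℕ} (hp : p.Prime) (hl : l.Prime) (hne : l ≠ p)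
    {k K : IntermediateField ℚ ℂ} (hT : Tower l k K) :
    ∀ (_ : NumberField k) (_ : l ≠ 2 ∨ IsEmpty (k →+* ℝ)) (E : ℕ → IntermediateField ℚ ℂ)
      (_ : ∀ n, NumberField (E n)) (_ : IsZp p k E) (B : ℕ) (_ : ∀ n, Few k K (E n) B) (C : ℕ)
      (_ : ∀ n, padicValNat l (classNumber (E n)) ≤ C),
      IsZp p K (fun n => K ⊔ E n) ∧ ∃ C', ∀ n, ∀ M : IntermediateField ℚ ℂ, M = K ⊔ E n →
        ∀ _ : NumberField M, padicValNat l (classNumber M) ≤ C' := by
  induction hT with
  | refl k =>
    intro hk hR E hEn hE B hB C hC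
    have h1 : (fun n => k ⊔ E n) = E := by
      funext n
      exact sup_eq_right.2 (hE.2 n).1
    refine ⟨by rw [h1]; exact hE, C, fun n M hM _ => ?_⟩
    have h2 : M = E n := hM.trans (sup_eq_right.2 (hE.2 n).1)
    subst h2
    exact hC n
  | @step k F K h1 hFK ih =>
    intro hk hR E hEn hE B hB C hC
    have hF : NumberField F := h1.fin hl.ne_zero
    have hK : NumberField K := hFK.fin hl.ne_zero hF
    have hnf : ∀ n, NumberField ↥(F ⊔ E n) := fun n =>
      nf (sup_fin (inferInstance : FiniteDimensional ℚ F)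
        (inferInstance : FiniteDimensional ℚ (E n)))
    obtain ⟨s1, s2, s3⟩ := step hp hl hne hR hE h1 hFK.le hB hC
    have s4 := s3 hnf
    obtain ⟨n0, hn0⟩ : ∃ n0, n0 = l ^ ((C + B) * l) := ⟨_, rfl⟩
    have s5 : ∀ n, n0 ≤ n → padicValNat l (classNumber ↥(F ⊔ E n)) =
        padicValNat l (classNumber ↥(F ⊔ E n0)) := by
      intro n hn
      induction n, hn using Nat.le_induction with
      | base => rfl
      | succ n hn ih2 =>
        rw [s4 n ?_, ih2]
        rw [← hn0]
        exact (hn.trans (Nat.le_succ n)).trans (Nat.lt_pow_self hp.one_lt).le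
    have s6 : ∀ n, padicValNat l (classNumber ↥(F ⊔ E n)) ≤
        ∑ i ∈ Finset.range (n0 + 1), padicValNat l (classNumber ↥(F ⊔ E i)) := by
      intro n
      rcases le_or_gt n n0 with h | h
      · exact Finset.single_le_sum (f := fun i => padicValNat l (classNumber ↥(F ⊔ E i)))
          (fun _ _ => Nat.zero_le _) (Finset.mem_range.2 (Nat.lt_succ_of_le h))
      · rw [s5 n h.le]
        exact Finset.single_le_sum (f := fun i => padicValNat l (classNumber ↥(F ⊔ E i)))
          (fun _ _ => Nat.zero_le _) (Finset.mem_range.2 (Nat.lt_succ_self n0))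
    have hR' : l ≠ 2 ∨ IsEmpty (F →+* ℝ) := by
      rcases hR with hR | hR
      · exact Or.inl hR
      · exact Or.inr ⟨fun x => hR.false (x.comp (IntermediateField.inclusion h1.1).toRingHom)⟩
    obtain ⟨r1, C', r2⟩ := ih hF hR' (fun n => F ⊔ E n) hnf s1 (B * l) s2 _ s6
    have e : ∀ n, K ⊔ (F ⊔ E n) = K ⊔ E n := by
      intro n
      rw [← sup_assoc, sup_eq_left.2 hFK.le]
    refine ⟨?_, C', fun n M hM hMn => r2 n M (hM.trans (e n).symm) hMn⟩
    have h2 : (fun n => K ⊔ (F ⊔ E n)) = fun n => K ⊔ E n := funext e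
    rw [← h2]
    exact r1

end Pool.Agent.H515.LP
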