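import Pool.Agent.H515.LP.Alg

/-! # Free orbits: the increments are divisible by the order of `l` modulo `p ^ n` -/

set_option autoImplicit false
set_option linter.unusedSectionVars false
set_option linter.deprecated false

namespace Pool.Agent.H515.LP

open Pool.Agent.H515.CH

/-- a permutation all of whose points have exact period `m` -/
theorem dvd_card_of_period {S : Type} [Finite S] (f : Equiv.Perm S) {m : ℕ}
    (h : ∀ x, Function.minimalPeriod f x = m) : m ∣ Nat.card S := by
  classical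
  have hSf : Fintype S := Fintype.ofFinite S
  by_cases hS : IsEmpty S
  · rw [Nat.card_of_isEmpty]
    exact dvd_zero m
  rw [not_isEmpty_iff] at hS
  obtain ⟨x0⟩ := hS
  have hfm : f ^ m = 1 := by
    ext x
    have h1 := Function.isPeriodicPt_minimalPeriod f x
    rw [h x] at h1
    have h2 : ∀ (k : ℕ) (y : S), (f ^ k) y = f^[k] y := fun k y => by
      rw [Equiv.Perm.iterate_eq_pow]
    rw [h2]
    exact h1
  have hord : orderOf f = m := by
    apply Nat.dvd_antisymm (orderOf_dvd_of_pow_eq_one hfm)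
    rw [← h x0]
    apply Function.IsPeriodicPt.minimalPeriod_dvd
    change f^[orderOf f] x0 = x0
    rw [Equiv.Perm.iterate_eq_pow, pow_orderOf_eq_one]
    rfl
  let G : Subgroup (Equiv.Perm S) := Subgroup.zpowers f
  have hGf : Fintype G := Fintype.ofFinite G
  have hcard : Fintype.card G = m := by
    rw [← hord, ← Nat.card_zpowers f, Nat.card_eq_fintype_card]
  have h1 := MulAction.card_eq_sum_card_group_div_card_stabilizer G S
  rw [Nat.card_eq_fintype_card, h1]
  apply Finset.dvd_sum
  intro ω _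
  have h2 : MulAction.stabilizer G ω.out = ⊥ := by
    rw [eq_bot_iff]
    rintro ⟨g, hg⟩ hst
    obtain ⟨i, hi⟩ := (Subgroup.mem_zpowers_iff).1 hg
    have hfin : IsOfFinOrder f := isOfFinOrder_of_finite f
    obtain ⟨j, hj⟩ : ∃ j : ℕ, f ^ j = g := by
      rw [← hfin.mem_powers_iff_mem_zpowers] at hg
      exact hg
    have h3 : g ω.out = ω.out := hst
    rw [← hj] at h3
    have h4 : Function.IsPeriodicPt f j ω.out := by
      change f^[j] ω.out = ω.out
      rw [Equiv.Perm.iterate_eq_pow]
      exact h3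
    have h5 := h4.minimalPeriod_dvd
    rw [h ω.out, ← hord] at h5
    have h6 : f ^ j = 1 := orderOf_dvd_iff_pow_eq_one.1 h5
    rw [Subgroup.mem_bot]
    apply Subtype.ext
    change g = 1
    rw [← hj, h6]
  have h3 : Fintype.card (MulAction.stabilizer G ω.out) = 1 := by
    have h4 : Nat.card (MulAction.stabilizer G ω.out) = 1 := by
      rw [h2]
      exact Subgroup.card_bot
    rw [← h4, Nat.card_eq_fintype_card]
  rw [h3, Nat.div_one, hcard]

section
variable {A B : Type} [AddCommGroup A] [AddCommGroup B] [Finite A] [Finite B]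

/-- a stable subgroup in which no nonzero element is fixed by the subgroup of order `p` -/
theorem orb {p n : ℕ} (hp : p.Prime) (hn : 1 ≤ n) (σ : A →+ A) (hσ : ∀ a, σ^[p ^ n] a = a)
    (W : AddSubgroup A) (hW : ∀ a ∈ W, σ a ∈ W)
    (hfix : ∀ a ∈ W, σ^[p ^ (n - 1)] a = a → a = 0) : p ^ n ∣ Nat.card W - 1 := by
  classical
  have hinj : Function.Injective σ := by
    intro x y hxy
    have h1 := hσ x
    have h2 := hσ y
    obtain ⟨k, hk⟩ := Nat.exists_eq_succ_of_ne_zero (pow_ne_zero n hp.ne_zero)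
    rw [hk, Nat.succ_eq_add_one, Function.iterate_succ_apply] at h1 h2
    rw [← h1, ← h2, hxy]
  let S : Type := {x : W // x ≠ 0}
  have hS : Finite S := inferInstance
  let f : S → S := fun x => ⟨⟨σ x.1.1, hW _ x.1.2⟩, by
      intro h
      apply x.2
      apply Subtype.ext
      apply hinj
      exact (congrArg Subtype.val h).trans (map_zero σ).symm⟩
  have hfi : Function.Injective f := by
    intro x y hxy
    apply Subtype.ext
    apply Subtype.ext
    apply hinj
    exact congrArg (fun z : S => (z.1 : A)) hxy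
  let F : Equiv.Perm S := Equiv.ofBijective f (Finite.injective_iff_bijective.1 hfi)
  have hf : ∀ (k : ℕ) (x : S), (F^[k] x).1.1 = σ^[k] x.1.1 := by
    intro k
    induction k with
    | zero => intro x; rfl
    | succ k ih =>
      intro x
      rw [Function.iterate_succ_apply, Function.iterate_succ_apply, ih]
      rfl
  have h1 : ∀ x : S, Function.minimalPeriod F x = p ^ n := by
    intro x
    have h2 : Function.minimalPeriod F x ∣ p ^ n := by
      apply Function.IsPeriodicPt.minimalPeriod_dvd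
      apply Subtype.ext
      apply Subtype.ext
      rw [hf]
      exact hσ _
    obtain ⟨k, hk, hk2⟩ := (Nat.dvd_prime_pow hp).1 h2
    by_contra h3
    have h4 : k ≠ n := by
      rintro rfl
      exact h3 hk2
    have h5 : Function.IsPeriodicPt F (p ^ (n - 1)) x :=
      (Function.isPeriodicPt_minimalPeriod F x).trans_dvd (by
        rw [hk2]
        exact pow_dvd_pow p (by omega))
    have h6 := hf (p ^ (n - 1)) x
    rw [h5] at h6
    exact x.2 (Subtype.ext (hfix _ x.1.2 h6.symm))
  have h2 := dvd_card_of_period F h1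
  have h3 : Nat.card S = Nat.card W - 1 := by
    have hWf : Fintype W := Fintype.ofFinite _
    have hSf : Fintype S := Fintype.ofFinite _
    rw [Nat.card_eq_fintype_card, Nat.card_eq_fintype_card]
    have h4 := Fintype.card_subtype_compl (fun x : W => x = 0)
    rw [Fintype.card_subtype_eq] at h4
    exact (Fintype.card_congr (Equiv.refl _)).trans h4
  rwa [h3] at h2

/-- a group of exponent `l ^ e` -/
theorem card_pow {l e : ℕ} (hl : l.Prime) (W : AddSubgroup A) (hW : W ≤ tor A (l ^ e)) :
    Nat.card W = l ^ padicValNat l (Nat.card W) := by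
  have hlf : Fact l.Prime := ⟨hl⟩
  have h1 : ∀ q : ℕ, q.Prime → q ∣ Nat.card W → q = l := by
    intro q hq hd
    have hqf : Fact q.Prime := ⟨hq⟩
    obtain ⟨x, hx⟩ := exists_prime_addOrderOf_dvd_card' q hd
    have h2 : (l ^ e) • x = 0 := by
      apply Subtype.ext
      exact hW x.2
    have h3 := addOrderOf_dvd_of_nsmul_eq_zero h2
    rw [hx] at h3
    exact (Nat.prime_dvd_prime_iff_eq hq hl).1 (hq.dvd_of_dvd_pow h3)
  have h2 : Nat.card W = l ^ (Nat.card W).primeFactorsList.length :=
    Nat.eq_prime_pow_of_unique_prime_dvd Nat.card_pos.ne' (fun {q} hq hd => h1 q hq hd)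
  conv_rhs => rw [h2, padicValNat.prime_pow]
  exact h2

/-- the `l`-part of a subgroup -/
theorem val_inf {l e : ℕ} (hl : l.Prime) (he : padicValNat l (Nat.card A) ≤ e)
    (H : AddSubgroup A) : padicValNat l (Nat.card (H ⊓ tor A (l ^ e) : AddSubgroup A)) =
      padicValNat l (Nat.card H) := by
  have hlf : Fact l.Prime := ⟨hl⟩
  have h := card_map_ker (DistribMulAction.toAddMonoidHom A (l ^ e)) H
  have h0 : ((DistribMulAction.toAddMonoidHom A (l ^ e)).ker ⊓ H : AddSubgroup A) =
      H ⊓ tor A (l ^ e) := by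
    rw [inf_comm]
    congr 1
  rw [h0] at h
  have h2 : ¬ l ∣ Nat.card (H.map (DistribMulAction.toAddMonoidHom A (l ^ e))) := by
    intro hd
    obtain ⟨x, hx⟩ := exists_prime_addOrderOf_dvd_card' l hd
    obtain ⟨y, hy, hyx⟩ := x.2
    have h3 : (l ^ e) • y = (x : A) := hyx
    have h4 : addOrderOf (x : A) = l := (AddSubgroup.addOrderOf_coe x).trans hx
    have h5 : l ^ (e + 1) ∣ addOrderOf y := by
      by_contra h6
      have h7 : addOrderOf y ∣ Nat.card A := addOrderOf_dvd_natCard y
      -- `l ^ e • y` has order prime to `l`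
      have h8 : padicValNat l (addOrderOf y) ≤ e := by
        have := val_dvd (p := l) Nat.card_pos.ne' h7
        omega
      obtain ⟨c, hc, hc2⟩ : ∃ c : ℕ, ¬ l ∣ c ∧ addOrderOf y ∣ l ^ e * c := by
        have hne : addOrderOf y ≠ 0 := (addOrderOf_pos y).ne'
        refine ⟨ordCompl[l] (addOrderOf y), Nat.not_dvd_ordCompl hl hne, ?_⟩
        conv_lhs => rw [← Nat.ordProj_mul_ordCompl_eq_self (addOrderOf y) l]
        apply mul_dvd_mul_right
        apply pow_dvd_pow
        rw [Nat.factorization_def _ hl]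
        exact h8
      have h9 : c • (x : A) = 0 := by
        rw [← h3, ← mul_smul, mul_comm]
        obtain ⟨d, hd2⟩ := hc2
        rw [hd2, mul_comm, mul_smul, addOrderOf_nsmul_eq_zero, smul_zero]
      have h10 := addOrderOf_dvd_of_nsmul_eq_zero h9
      rw [h4] at h10
      exact hc h10
    have h6 : l ^ (e + 1) ∣ Nat.card A := h5.trans (addOrderOf_dvd_natCard y)
    have h7 := (padicValNat_dvd_iff_le (hp := hlf) Nat.card_pos.ne').1 h6
    omega
  rw [h, val_mul (p := l) Nat.card_pos.ne' Nat.card_pos.ne', padicValNat.eq_zero_of_not_dvd h2,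
    add_zero]

/-- in the kernel of the norm the classes form free orbits -/
theorem key {p l n : ℕ} (hp : p.Prime) (hl : l.Prime) (hne : l ≠ p) (hn : 1 ≤ n)
    (N : A →+ B) (J : B →+ A) (σ : A →+ A)
    (hσ : ∀ a, σ^[p ^ n] a = a) (htr : ∀ a, σ^[p ^ (n - 1)] a = a → J (N a) = p • a)
    (hcomm : ∀ a, N a = 0 → p • N (σ a) = 0) (e : ℕ) :
    orderOf (l : ZMod (p ^ n)) ∣
      padicValNat l (Nat.card (N.ker ⊓ tor A (l ^ e) : AddSubgroup A)) := by
  have hlf : Fact l.Prime := ⟨hl⟩
  have hcop : p.Coprime l := ((Nat.coprime_primes hp hl).2 (Ne.symm hne))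
  have h5 := orb hp hn σ hσ (N.ker ⊓ tor A (l ^ e)) (fun a ha => by
    have h6 : (l ^ e) • a = 0 := ha.2
    have h6' : (l ^ e) • σ a = 0 := by rw [← map_nsmul, h6, map_zero]
    refine ⟨?_, h6'⟩
    have h7 := hcomm a ha.1
    have h8 : (l ^ e) • N (σ a) = 0 := by rw [← map_nsmul, h6', map_zero]
    have h9 : p.Coprime (l ^ e) := Nat.Coprime.pow_right e hcop
    have h10 := Nat.gcd_eq_gcd_ab p (l ^ e)
    rw [h9.gcd_eq_one] at h10
    have h11 : ((1 : ℕ) : ℤ) • N (σ a) = 0 := by
      rw [h10, add_smul, mul_comm, mul_smul, mul_comm ((l ^ e : ℕ) : ℤ), mul_smul,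
        natCast_zsmul, natCast_zsmul, h7, h8, smul_zero, smul_zero, add_zero]
    have h12 : N (σ a) = 0 := by simpa using h11
    exact h12) (fun a ha hfix => by
    have h6 : (l ^ e) • a = 0 := ha.2
    have h7 := htr a hfix
    have h8 : N a = 0 := ha.1
    rw [h8, map_zero] at h7
    have h9 : p.Coprime (l ^ e) := Nat.Coprime.pow_right e hcop
    have h10 := Nat.gcd_eq_gcd_ab p (l ^ e)
    rw [h9.gcd_eq_one] at h10
    have h11 : ((1 : ℕ) : ℤ) • a = 0 := by
      rw [h10, add_smul, mul_comm, mul_smul, mul_comm ((l ^ e : ℕ) : ℤ), mul_smul,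
        natCast_zsmul, natCast_zsmul, ← h7, h6, smul_zero, smul_zero, add_zero]
    simpa using h11)
  have h6 := card_pow hl (N.ker ⊓ tor A (l ^ e)) inf_le_right
  rw [h6] at h5
  apply orderOf_dvd_of_pow_eq_one
  have h7 : ((l ^ padicValNat l (Nat.card (N.ker ⊓ tor A (l ^ e) : AddSubgroup A)) : ℕ) :
      ZMod (p ^ n)) = ((1 : ℕ) : ZMod (p ^ n)) := by
    rw [ZMod.natCast_eq_natCast_iff]
    exact ((Nat.modEq_iff_dvd' (Nat.one_le_pow _ _ hl.pos)).2 h5).symm
  push_cast at h7
  exact h7

/-- the kernel of the norm is a direct summand of the `l`-part -/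
theorem split {p l : ℕ} (hp : p.Prime) (hl : l.Prime) (hne : l ≠ p)
    (N : A →+ B) (J : B →+ A) (hNJ : ∀ b, N (J b) = p • b) (i : ℕ) :
    padicValNat l (Nat.card (tor A (l ^ i))) =
      padicValNat l (Nat.card (N.ker ⊓ tor A (l ^ i) : AddSubgroup A)) +
        padicValNat l (Nat.card (tor B (l ^ i))) := by
  have hlf : Fact l.Prime := ⟨hl⟩
  have hcop : p.Coprime l := ((Nat.coprime_primes hp hl).2 (Ne.symm hne))
  have h2 := card_map_ker N (tor A (l ^ i))
  have h3 : (tor A (l ^ i)).map N = tor B (l ^ i) := by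
    apply le_antisymm
    · rintro _ ⟨a, ha, rfl⟩
      have h4 : (l ^ i) • a = 0 := ha
      change (l ^ i) • N a = 0
      rw [← map_nsmul, h4, map_zero]
    · intro b hb
      have h4 : (l ^ i) • b = 0 := hb
      have h9 : p.Coprime (l ^ i) := Nat.Coprime.pow_right i hcop
      have h10 := Nat.gcd_eq_gcd_ab p (l ^ i)
      rw [h9.gcd_eq_one] at h10
      have h11 : b = N (J ((p.gcdA (l ^ i)) • b)) := by
        have h12 : ((1 : ℕ) : ℤ) • b = b := by simp
        rw [hNJ]
        conv_lhs => rw [← h12, h10, add_smul, mul_smul, mul_comm ((l ^ i : ℕ) : ℤ), mul_smul,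
          natCast_zsmul, natCast_zsmul, h4, smul_zero, add_zero]
      rw [h11]
      refine ⟨_, ?_, rfl⟩
      change (l ^ i) • J ((p.gcdA (l ^ i)) • b) = 0
      rw [← map_nsmul, smul_comm, h4, smul_zero, map_zero]
  rw [h3] at h2
  rw [h2, val_mul (p := l) Nat.card_pos.ne' Nat.card_pos.ne']

/-- **The increments.** -/
theorem incr {p l n : ℕ} (hp : p.Prime) (hl : l.Prime) (hne : l ≠ p) (hn : 1 ≤ n)
    (N : A →+ B) (J : B →+ A) (hNJ : ∀ b, N (J b) = p • b) (σ : A →+ A)
    (hσ : ∀ a, σ^[p ^ n] a = a) (htr : ∀ a, σ^[p ^ (n - 1)] a = a → J (N a) = p • a)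
    (hcomm : ∀ a, N a = 0 → p • N (σ a) = 0) (i : ℕ) :
    padicValNat l (Nat.card (tor B (l ^ i))) ≤ padicValNat l (Nat.card (tor A (l ^ i))) ∧
      orderOf (l : ZMod (p ^ n)) ∣
        padicValNat l (Nat.card (tor A (l ^ i))) - padicValNat l (Nat.card (tor B (l ^ i))) ∧
      (padicValNat l (Nat.card (tor A (l ^ 1))) < orderOf (l : ZMod (p ^ n)) →
        padicValNat l (Nat.card (tor A (l ^ i))) = padicValNat l (Nat.card (tor B (l ^ i)))) := by
  have hlf : Fact l.Prime := ⟨hl⟩
  have h1 := split hp hl hne N J hNJ i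
  refine ⟨by omega, ?_, fun hr => ?_⟩
  · rw [h1, Nat.add_sub_cancel]
    exact key hp hl hne hn N J σ hσ htr hcomm i
  · have h5 := key hp hl hne hn N J σ hσ htr hcomm 1
    have h6 := split hp hl hne N J hNJ 1
    have h7 : padicValNat l (Nat.card (N.ker ⊓ tor A (l ^ 1) : AddSubgroup A)) = 0 :=
      Nat.eq_zero_of_dvd_of_lt h5 (by omega)
    have h8 : Nat.card (N.ker ⊓ tor A (l ^ 1) : AddSubgroup A) = 1 := by
      have h9 := card_pow hl (e := 1) (N.ker ⊓ tor A (l ^ 1)) inf_le_right
      rw [h7, pow_zero] at h9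
      exact h9
    have h9 : ¬ l ∣ Nat.card (N.ker ⊓ tor A (l ^ i) : AddSubgroup A) := by
      intro hd
      obtain ⟨x, hx⟩ := exists_prime_addOrderOf_dvd_card' l hd
      have h10 : l • (x : A) = 0 := by
        have := addOrderOf_nsmul_eq_zero x
        rw [hx] at this
        exact congrArg Subtype.val this
      have h11 : (N.ker ⊓ tor A (l ^ 1) : AddSubgroup A) = ⊥ := AddSubgroup.card_eq_one.1 h8
      have h12 : (x : A) ∈ (N.ker ⊓ tor A (l ^ 1) : AddSubgroup A) := by
        rw [pow_one]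
        exact ⟨x.2.1, h10⟩
      rw [h11, AddSubgroup.mem_bot] at h12
      have h13 : x = 0 := Subtype.ext h12
      rw [h13, addOrderOf_zero] at hx
      exact hl.one_lt.ne hx
    rw [h1, padicValNat.eq_zero_of_not_dvd h9, zero_add]

/-- the whole `l`-part -/
theorem tor_big {l i : ℕ} (hl : l.Prime) (hi : padicValNat l (Nat.card A) ≤ i) :
    padicValNat l (Nat.card (tor A (l ^ i))) = padicValNat l (Nat.card A) := by
  have h := val_inf hl hi (⊤ : AddSubgroup A)
  rw [top_inf_eq] at h
  rw [h]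
  exact congrArg _ (Nat.card_congr (AddSubgroup.topEquiv.toEquiv))

end
end Pool.Agent.H515.LP
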