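import Pool.Agent.H515.LP.Orb
import Pool.Agent.H515.LP.Main

/-! # The increments in `ℤ_p`-extensions -/

set_option autoImplicit false
set_option linter.unusedSectionVars false
set_option linter.deprecated false

namespace Pool.Agent.H515.LP

open NumberField IsDedekindDomain Pool.Agent.Q5.BR Pool.Agent.Q92.AR Pool.Agent.Q106.AR
open Pool.Agent.H515.CH
open Pool.Agent.TeamU (act mem_act)
open Pool.Agent.Q280.AR (under_under rdeg_tower)

section
variable {k L E : Type} [Field k] [NumberField k] [Field L] [NumberField L] [Field E]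
  [NumberField E] [Algebra k L] [Algebra L E] [Algebra k E] [IsScalarTower k L E]

/-- the exponent of `l` in the number of the classes of order dividing `l ^ i` -/
noncomputable def tv (l i : ℕ) (E : Type) [Field E] [NumberField E] : ℕ :=
  padicValNat l (Nat.card {c : ClassGroup (𝓞 E) // c ^ (l ^ i) = 1})

theorem tv_eq (l i : ℕ) (E : Type) [Field E] [NumberField E] :
    tv l i E = padicValNat l (Nat.card (tor (DC E) (l ^ i))) :=
  congrArg _ (Pool.Agent.H515.RD.card_tors (F := E) l i)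

theorem tv_big {l i : ℕ} (hl : l.Prime) (E : Type) [Field E] [NumberField E]
    (hi : padicValNat l (classNumber E) ≤ i) : tv l i E = padicValNat l (classNumber E) := by
  rw [tv_eq, ← card_DC E]
  exact tor_big hl (by rw [card_DC]; exact hi)

/-- **The increments.** -/
theorem incr_field [IsGalois k E] {p l n : ℕ} (hp : p.Prime) (hl : l.Prime) (hne : l ≠ p)
    (hn : 1 ≤ n) (σ : E ≃ₐ[k] E) (hσ : ∀ g : E ≃ₐ[k] E, g ∈ Subgroup.zpowers σ)
    (hkE : Module.finrank k E = p ^ n) (hLE : Module.finrank L E = p) (i : ℕ) :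
    tv l i L ≤ tv l i E ∧ orderOf (l : ZMod (p ^ n)) ∣ tv l i E - tv l i L ∧
      (tv l 1 E < orderOf (l : ZMod (p ^ n)) → tv l i E = tv l i L) := by
  have hG : IsGalois L E := IsGalois.tower_top_of_isGalois k L E
  rw [tv_eq, tv_eq, tv_eq]
  refine incr hp hl hne hn (nb L E) (jb L E) (fun b => ?_) (sb σ) (fun a => ?_) (fun a ha => ?_)
    (fun a ha => ?_) i
  · rw [nb_jb, hLE]
  · rw [← hkE]
    exact sb_finrank σ a
  · rw [Pool.Agent.H515.RD.jb_nb]
    have hord : orderOf σ = p ^ n := by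
      rw [orderOf_eq_card_of_forall_mem_zpowers hσ, IsGalois.card_aut_eq_finrank, hkE]
    have h1 : ∀ g : E ≃ₐ[L] E, sb g a = a := by
      intro g
      rw [sb_res (k := k)]
      have hfin : IsOfFinOrder σ := isOfFinOrder_of_finite σ
      obtain ⟨m, hm⟩ : ∃ m : ℕ, σ ^ m = g.restrictScalars k := by
        have := hσ (g.restrictScalars k)
        rw [← hfin.mem_powers_iff_mem_zpowers] at this
        exact this
      have h2 : g ^ p = 1 := by
        rw [← hLE, ← IsGalois.card_aut_eq_finrank]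
        exact pow_card_eq_one'
      have h3 : σ ^ (m * p) = 1 := by
        rw [pow_mul, hm]
        ext x
        have h4 : ∀ (j : ℕ) (x : E), ((g.restrictScalars k) ^ j) x = (g ^ j) x := by
          intro j
          induction j with
          | zero => intro x; rfl
          | succ j ih =>
            intro x
            rw [pow_succ, pow_succ]
            exact ih _
        rw [h4, h2]
        rfl
      have h4 := orderOf_dvd_of_pow_eq_one h3
      rw [hord] at h4
      obtain ⟨j, hj⟩ := Nat.exists_eq_add_of_le' hn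
      subst hj
      rw [pow_succ] at h4
      obtain ⟨i, hi⟩ := Nat.dvd_of_mul_dvd_mul_right hp.pos h4
      rw [← hm, hi, pow_mul, sb_pow]
      have h5 : sb (σ ^ p ^ j) a = a := by
        rw [sb_pow]
        exact ha
      exact Function.iterate_fixed h5 i
    rw [Finset.sum_congr rfl fun g _ => h1 g, Finset.sum_const, Finset.card_univ,
      ← Nat.card_eq_fintype_card, IsGalois.card_aut_eq_finrank, hLE]
  · have h1 : jb L E (nb L E (sb σ a)) = sb σ (jb L E (nb L E a)) := by
      rw [Pool.Agent.H515.RD.jb_nb, Pool.Agent.H515.RD.jb_nb, map_sum]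
      refine Finset.sum_congr rfl fun g _ => ?_
      rw [sb_res (k := k) g, sb_res (k := k) g, ← sb_mul, ← sb_mul]
      obtain ⟨m, hm⟩ := Subgroup.mem_zpowers_iff.1 (hσ (g.restrictScalars k))
      rw [← hm, ((Commute.refl σ).zpow_left m).eq]
    have h2 := nb_jb (F := L) (E := E) (nb L E (sb σ a))
    rw [h1, ha, map_zero, map_zero, map_zero, hLE] at h2
    exact h2.symm

end

theorem incr_cx {p l n : ℕ} (hp : p.Prime) (hl : l.Prime) (hne : l ≠ p)
    {F M N : IntermediateField ℚ ℂ} [NumberField F] [NumberField M] [NumberField N]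
    (hM : CyclicExt F M (p ^ n)) (hN : CyclicExt F N (p ^ (n + 1))) (hMN : M ≤ N) (i : ℕ) :
    tv l i M ≤ tv l i N ∧ orderOf (l : ZMod (p ^ (n + 1))) ∣ tv l i N - tv l i M ∧
      (tv l 1 N < orderOf (l : ZMod (p ^ (n + 1))) → tv l i N = tv l i M) := by
  obtain ⟨h1, g1, c1, f1⟩ := hN
  obtain ⟨h2, g2, c2, f2⟩ := hM
  let a1 : Algebra F N := inc h1
  let a2 : Algebra F M := inc h2
  let a3 : Algebra M N := inc hMN
  have t1 : IsScalarTower F M N := IsScalarTower.of_algebraMap_eq fun x => rfl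
  have g1' : IsGalois F N := g1
  have f1' : Module.finrank F N = p ^ (n + 1) := f1
  have f2' : Module.finrank F M = p ^ n := f2
  have f3 : Module.finrank M N = p := by
    have h := Module.finrank_mul_finrank F M N
    rw [f1', f2', pow_succ] at h
    exact Nat.eq_of_mul_eq_mul_left (pow_pos hp.pos n) h
  obtain ⟨σ, hσ⟩ := c1
  exact incr_field (k := F) (L := M) (E := N) hp hl hne
    (Nat.succ_le_succ (Nat.zero_le n)) σ hσ f1' f3 i

/-- the order of `l` modulo `p ^ n` -/
theorem ord_bound {p l : ℕ} (hp : p.Prime) (hl : l.Prime) (hne : l ≠ p) (n d : ℕ) (hd : d ≠ 0)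
    (h : p ^ n ∣ l ^ d - 1) : p ^ n ∣ (l ^ (2 * (p - 1)) - 1) * d := by
  have hpf : Fact p.Prime := ⟨hp⟩
  have hlp : ¬ p ∣ l := fun h => hne ((Nat.prime_dvd_prime_iff_eq hp hl).1 h).symm
  have hx1 : 1 < l ^ (2 * (p - 1)) := Nat.one_lt_pow (by have := hp.two_le; omega) hl.one_lt
  have hxp : ¬ p ∣ l ^ (2 * (p - 1)) := fun h => hlp (hp.dvd_of_dvd_pow h)
  have hx0 : l ^ (2 * (p - 1)) - 1 ≠ 0 := by omega
  have h1 : p ^ n ∣ (l ^ (2 * (p - 1))) ^ d - 1 := by
    refine h.trans ?_
    have h2 := Nat.sub_dvd_pow_sub_pow (l ^ d) 1 (2 * (p - 1))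
    rw [one_pow, ← pow_mul, mul_comm, pow_mul] at h2
    exact h2
  have h2 : (l ^ (2 * (p - 1))) ^ d - 1 ≠ 0 := by
    have := Nat.one_lt_pow hd hx1
    omega
  have h3 := (padicValNat_dvd_iff_le (hp := hpf) h2).1 h1
  rw [padicValNat_dvd_iff_le (hp := hpf) (mul_ne_zero hx0 hd), padicValNat.mul hx0 hd]
  refine h3.trans ?_
  rcases hp.eq_two_or_odd' with h4 | h4
  · subst h4
    have h5 : ¬ 2 ∣ l := hlp
    have h6 := padicValNat.pow_two_sub_pow (x := l) (y := 1) hl.one_lt
      (by have := hl.two_le; omega) h5 (n := 2 * d) (by omega) (even_two_mul d)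
    have h7 := padicValNat.pow_two_sub_pow (x := l) (y := 1) hl.one_lt
      (by have := hl.two_le; omega) h5 (n := 2) (by omega) even_two
    rw [padicValNat.mul two_ne_zero hd, one_pow, pow_mul] at h6
    rw [one_pow] at h7
    have h8 : 2 * (2 - 1) = 2 := rfl
    rw [h8]
    omega
  · have h5 : p ∣ l ^ (2 * (p - 1)) - 1 := by
      rw [mul_comm, pow_mul]
      have h6 : l ^ (p - 1) ≡ 1 [MOD p] := by
        have h7 := Nat.ModEq.pow_totient (n := p) (x := l)
          ((Nat.coprime_primes hl hp).2 hne)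
        rwa [Nat.totient_prime hp] at h7
      have h7 : (l ^ (p - 1)) ^ 2 ≡ 1 ^ 2 [MOD p] := h6.pow 2
      rw [one_pow] at h7
      exact (Nat.modEq_iff_dvd' (by rw [← pow_mul, mul_comm]; exact hx1.le)).1 h7.symm
    have h6 := padicValNat.pow_sub_pow (p := p) h4 hx1 h5 hxp hd
    rw [one_pow] at h6
    exact h6.le

/-- the sequence lemma -/
theorem seq_const {p M : ℕ} (hp : 2 ≤ p) (hM : 0 < M) (e : ℕ → ℕ) (hmono : ∀ n, e n ≤ e (n + 1))
    (hdvd : ∀ n, p ^ (n + 1) ∣ M * (e (n + 1) - e n)) {β : ℝ}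
    (hβ : Filter.Tendsto (fun n => (e n : ℝ) / (p : ℝ) ^ n) Filter.atTop (nhds β)) :
    0 ≤ β ∧ ∃ γ : ℝ, ∃ N : ℕ, ∀ n, N ≤ n → (e n : ℝ) = β * (p : ℝ) ^ n + γ := by
  have hp0 : (0 : ℝ) < p := by
    have : 0 < p := by omega
    exact_mod_cast this
  have hp1 : (1 : ℝ) < p := by
    have : 1 < p := by omega
    exact_mod_cast this
  choose f hf using hdvd
  have hf' : ∀ n, (M : ℝ) * ((e (n + 1) : ℝ) - e n) = (p : ℝ) ^ (n + 1) * f n := by
    intro n
    have h1 := hf n
    have h2 : ((M * (e (n + 1) - e n) : ℕ) : ℝ) = ((p ^ (n + 1) * f n : ℕ) : ℝ) := by rw [h1]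
    rw [Nat.cast_mul, Nat.cast_sub (hmono n)] at h2
    push_cast at h2
    exact h2
  have hft : Filter.Tendsto (fun n => (f n : ℝ)) Filter.atTop
      (nhds ((M : ℝ) * (β - β / p))) := by
    have h1 : (fun n => (f n : ℝ)) = fun n => (M : ℝ) *
        ((e (n + 1) : ℝ) / (p : ℝ) ^ (n + 1) - (e n : ℝ) / (p : ℝ) ^ n / p) := by
      funext n
      have h2 := hf' n
      have h3 : (p : ℝ) ^ n ≠ 0 := (pow_pos hp0 n).ne'
      have h4 : (p : ℝ) ≠ 0 := hp0.ne'
      rw [pow_succ] at h2 ⊢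
      field_simp
      linarith
    rw [h1]
    refine Filter.Tendsto.const_mul _ (Filter.Tendsto.sub ?_ (hβ.div_const _))
    exact (Filter.tendsto_add_atTop_iff_nat (f := fun n => (e n : ℝ) / (p : ℝ) ^ n) 1).2 hβ
  obtain ⟨N, hN⟩ : ∃ N, ∀ n, N ≤ n → |(f n : ℝ) - (M : ℝ) * (β - β / p)| < 1 / 2 := by
    have h1 := (Metric.tendsto_atTop.1 hft) (1 / 2) (by norm_num)
    exact h1
  have hconst : ∀ n, N ≤ n → f n = f N := by
    intro n hn
    have h1 := hN n hn
    have h2 := hN N le_rfl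
    rw [abs_lt] at h1 h2
    have h3 : ((f n : ℤ) : ℝ) - ((f N : ℤ) : ℝ) < 1 := by push_cast; linarith
    have h4 : ((f N : ℤ) : ℝ) - ((f n : ℤ) : ℝ) < 1 := by push_cast; linarith
    have h5 : (f n : ℤ) - (f N : ℤ) < 1 := by exact_mod_cast h3
    have h6 : (f N : ℤ) - (f n : ℤ) < 1 := by exact_mod_cast h4
    omega
  have hlim : (f N : ℝ) = (M : ℝ) * (β - β / p) := by
    refine tendsto_nhds_unique (tendsto_const_nhds.congr' ?_) hft
    filter_upwards [Filter.eventually_ge_atTop N] with n hn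
    rw [hconst n hn]
  have hMr : (M : ℝ) ≠ 0 := by exact_mod_cast hM.ne'
  refine ⟨ge_of_tendsto' hβ fun n => by positivity, (e N : ℝ) - β * (p : ℝ) ^ N, N, ?_⟩
  intro n hn
  induction n, hn using Nat.le_induction with
  | base => ring
  | succ n hn ih =>
    have h1 := hf' n
    rw [hconst n hn, hlim] at h1
    have h2 : (e (n + 1) : ℝ) - e n = (p : ℝ) ^ (n + 1) * (β - β / p) := by
      have h3 : (M : ℝ) * ((e (n + 1) : ℝ) - e n) =
          (M : ℝ) * ((p : ℝ) ^ (n + 1) * (β - β / p)) := by rw [h1]; ring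
      exact mul_left_cancel₀ hMr h3
    have h4 : (p : ℝ) ^ (n + 1) * (β - β / p) = β * (p : ℝ) ^ (n + 1) - β * (p : ℝ) ^ n := by
      rw [pow_succ]
      have h4 : (p : ℝ) ≠ 0 := hp0.ne'
      field_simp
    linarith

theorem tendsto_of_law {p : ℕ} (hp : 2 ≤ p) (e : ℕ → ℕ) {β γ : ℝ} {N : ℕ}
    (h : ∀ n, N ≤ n → (e n : ℝ) = β * (p : ℝ) ^ n + γ) :
    Filter.Tendsto (fun n => (e n : ℝ) / (p : ℝ) ^ n) Filter.atTop (nhds β) := by
  have hp0 : (0 : ℝ) < p := by
    have : 0 < p := by omega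
    exact_mod_cast this
  have hp1 : (1 : ℝ) < p := by
    have : 1 < p := by omega
    exact_mod_cast this
  have h1 : Filter.Tendsto (fun n : ℕ => β + γ / (p : ℝ) ^ n) Filter.atTop (nhds (β + 0)) :=
    tendsto_const_nhds.add
      (Filter.Tendsto.const_div_atTop (tendsto_pow_atTop_atTop_of_one_lt hp1) γ)
  rw [add_zero] at h1
  refine h1.congr' ?_
  filter_upwards [Filter.eventually_ge_atTop N] with n hn
  rw [h n hn]
  have h3 : (p : ℝ) ^ n ≠ 0 := (pow_pos hp0 n).ne'
  field_simp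

end Pool.Agent.H515.LP
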