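import Pool.Agent.H515.LP.OrbF

/-! # The law of the increments in a `ℤ_p`-extension -/

set_option autoImplicit false
set_option linter.unusedSectionVars false
set_option linter.deprecated false

namespace Pool.Agent.H515.LP

open NumberField IsDedekindDomain Pool.Agent.Q5.BR Pool.Agent.Q92.AR Pool.Agent.Q106.AR
open Pool.Agent.H515.CH

theorem ord_pos {p l : ℕ} (hp : p.Prime) (hl : l.Prime) (hne : l ≠ p) (n : ℕ) :
    0 < orderOf (l : ZMod (p ^ n)) := by
  have hcop : l.Coprime (p ^ n) := Nat.Coprime.pow_right n ((Nat.coprime_primes hl hp).2 hne)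
  rw [orderOf_pos_iff, isOfFinOrder_iff_pow_eq_one]
  refine ⟨(p ^ n).totient, Nat.totient_pos.2 (pow_pos hp.pos n), ?_⟩
  have h2 := ZMod.pow_totient (ZMod.unitOfCoprime l hcop)
  have h3 : ((ZMod.unitOfCoprime l hcop ^ (p ^ n).totient : (ZMod (p ^ n))ˣ) : ZMod (p ^ n)) =
      1 := by rw [h2]; rfl
  rwa [Units.val_pow_eq_pow_val, ZMod.coe_unitOfCoprime] at h3

/-- the constant -/
theorem ord_dvd {p l : ℕ} (hp : p.Prime) (hl : l.Prime) (hne : l ≠ p) (n : ℕ) :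
    p ^ n ∣ (l ^ (2 * (p - 1)) - 1) * orderOf (l : ZMod (p ^ n)) := by
  refine ord_bound hp hl hne n _ (ord_pos hp hl hne n).ne' ?_
  have h2 := pow_orderOf_eq_one (l : ZMod (p ^ n))
  have h3 : ((l ^ orderOf (l : ZMod (p ^ n)) : ℕ) : ZMod (p ^ n)) = ((1 : ℕ) : ZMod (p ^ n)) := by
    push_cast
    exact h2
  rw [ZMod.natCast_eq_natCast_iff] at h3
  exact (Nat.modEq_iff_dvd' (Nat.one_le_pow _ _ hl.pos)).1 h3.symm

theorem const_pos {p l : ℕ} (hp : p.Prime) (hl : l.Prime) : 0 < l ^ (2 * (p - 1)) - 1 := by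
  have := Nat.one_lt_pow (n := 2 * (p - 1)) (by have := hp.two_le; omega) hl.one_lt
  omega

theorem ord_le {p l : ℕ} (hp : p.Prime) (hl : l.Prime) (hne : l ≠ p) (n : ℕ) :
    p ^ n ≤ (l ^ (2 * (p - 1)) - 1) * orderOf (l : ZMod (p ^ n)) :=
  Nat.le_of_dvd (Nat.mul_pos (const_pos hp hl) (ord_pos hp hl hne n)) (ord_dvd hp hl hne n)

theorem tv_le {l : ℕ} (hl : l.Prime) (i : ℕ) (E : Type) [Field E] [NumberField E] :
    tv l i E ≤ padicValNat l (classNumber E) := by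
  have hlf : Fact l.Prime := ⟨hl⟩
  rw [tv_eq, ← card_DC E]
  exact val_dvd Nat.card_pos.ne' (AddSubgroup.card_addSubgroup_dvd_card _)

section
variable {p l : ℕ} {k : IntermediateField ℚ ℂ} [NumberField k] {E : ℕ → IntermediateField ℚ ℂ}
  [∀ n, NumberField (E n)]

theorem step_tv (hp : p.Prime) (hl : l.Prime) (hne : l ≠ p) (hE : IsZp p k E) (i n : ℕ) :
    tv l i (E n) ≤ tv l i (E (n + 1)) ∧
      orderOf (l : ZMod (p ^ (n + 1))) ∣ tv l i (E (n + 1)) - tv l i (E n) ∧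
      (tv l 1 (E (n + 1)) < orderOf (l : ZMod (p ^ (n + 1))) →
        tv l i (E (n + 1)) = tv l i (E n)) :=
  incr_cx hp hl hne (hE.2 n) (hE.2 (n + 1)) (hE.1 (Nat.le_succ n)) i

theorem step_e (hp : p.Prime) (hl : l.Prime) (hne : l ≠ p) (hE : IsZp p k E) (n : ℕ) :
    padicValNat l (classNumber (E n)) ≤ padicValNat l (classNumber (E (n + 1))) ∧
      orderOf (l : ZMod (p ^ (n + 1))) ∣
        padicValNat l (classNumber (E (n + 1))) - padicValNat l (classNumber (E n)) ∧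
      (tv l 1 (E (n + 1)) < orderOf (l : ZMod (p ^ (n + 1))) →
        padicValNat l (classNumber (E (n + 1))) = padicValNat l (classNumber (E n))) := by
  have h := step_tv hp hl hne hE
    (padicValNat l (classNumber (E n)) + padicValNat l (classNumber (E (n + 1)))) n
  rw [tv_big hl (E n) (Nat.le_add_right _ _), tv_big hl (E (n + 1)) (Nat.le_add_left _ _)] at h
  exact h

/-- the law and the convergence -/
theorem law_iff (hp : p.Prime) (hl : l.Prime) (hne : l ≠ p) (e : ℕ → ℕ)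
    (h : ∀ n, e n ≤ e (n + 1) ∧ orderOf (l : ZMod (p ^ (n + 1))) ∣ e (n + 1) - e n) :
    (∃ β γ : ℝ, 0 ≤ β ∧ ∃ N : ℕ, ∀ n, N ≤ n → (e n : ℝ) = β * (p : ℝ) ^ n + γ) ↔
      ∃ β : ℝ, Filter.Tendsto (fun n => (e n : ℝ) / (p : ℝ) ^ n) Filter.atTop (nhds β) := by
  constructor
  · rintro ⟨β, γ, _, N, h1⟩
    exact ⟨β, tendsto_of_law hp.two_le e h1⟩
  · rintro ⟨β, hβ⟩
    obtain ⟨h1, γ, N, h2⟩ := seq_const hp.two_le (const_pos hp hl) e (fun n => (h n).1)
      (fun n => (ord_dvd hp hl hne (n + 1)).trans (Nat.mul_dvd_mul_left _ (h n).2)) hβ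
    exact ⟨β, γ, h1, N, h2⟩

/-- the alternative -/
theorem alt (hp : p.Prime) (hl : l.Prime) (hne : l ≠ p) (hE : IsZp p k E)
    (h : ¬ ∃ γ N : ℕ, ∀ n, N ≤ n → padicValNat l (classNumber (E n)) = γ) (N : ℕ) :
    ∃ n, N ≤ n ∧ p ^ n ≤ (l ^ (2 * (p - 1)) - 1) * tv l 1 (E n) := by
  by_contra h1
  push Not at h1
  apply h
  refine ⟨padicValNat l (classNumber (E N)), N, fun n hn => ?_⟩
  induction n, hn using Nat.le_induction with
  | base => rfl
  | succ n hn ih =>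
    rw [(step_e hp hl hne hE n).2.2 ?_, ih]
    have h2 := h1 (n + 1) (by omega)
    have h3 := ord_le hp hl hne (n + 1)
    exact lt_of_mul_lt_mul_left (h2.trans_le h3) (Nat.zero_le _)

theorem const_iff (hp : p.Prime) (hl : l.Prime) (hne : l ≠ p) (hE : IsZp p k E) :
    (∃ γ N : ℕ, ∀ n, N ≤ n → padicValNat l (classNumber (E n)) = γ) ↔
      Filter.Tendsto (fun n => (tv l 1 (E n) : ℝ) / (p : ℝ) ^ n) Filter.atTop (nhds 0) := by
  have hp1 : (1 : ℝ) < p := by exact_mod_cast hp.one_lt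
  have hp0 : (0 : ℝ) < p := by linarith
  constructor
  · rintro ⟨γ, N, h⟩
    have h1 : Filter.Tendsto (fun n : ℕ => (γ : ℝ) / (p : ℝ) ^ n) Filter.atTop (nhds 0) :=
      Filter.Tendsto.const_div_atTop (tendsto_pow_atTop_atTop_of_one_lt hp1) _
    refine squeeze_zero' (Filter.Eventually.of_forall fun n => by positivity) ?_ h1
    filter_upwards [Filter.eventually_ge_atTop N] with n hn
    have h2 : tv l 1 (E n) ≤ γ := (tv_le hl 1 (E n)).trans (h n hn).le
    have h3 : (tv l 1 (E n) : ℝ) ≤ γ := by exact_mod_cast h2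
    exact div_le_div_of_nonneg_right h3 (pow_pos hp0 n).le
  · intro h
    by_contra h1
    have h2 := alt hp hl hne hE h1
    have hM : (0 : ℝ) < ((l ^ (2 * (p - 1)) - 1 : ℕ) : ℝ) := by exact_mod_cast const_pos hp hl
    obtain ⟨N, hN⟩ := (Metric.tendsto_atTop.1 h) (1 / ((l ^ (2 * (p - 1)) - 1 : ℕ) : ℝ))
      (by positivity)
    obtain ⟨n, hn, h3⟩ := h2 N
    have h4 := hN n hn
    rw [Real.dist_eq, sub_zero, abs_of_nonneg (by positivity), div_lt_div_iff₀ (pow_pos hp0 n) hM]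
      at h4
    have h5 : ((p ^ n : ℕ) : ℝ) ≤ (((l ^ (2 * (p - 1)) - 1) * tv l 1 (E n) : ℕ) : ℝ) := by
      exact_mod_cast h3
    rw [Nat.cast_mul, Nat.cast_pow] at h5
    linarith

end
end Pool.Agent.H515.LP
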